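import Mathlib.CategoryTheory.Category.Init
import Mathlib.Algebra.Order.Star.Real
import Mathlib.Analysis.ODE.ExistUnique
import Mathlib.Algebra.Polynomial.Derivative
import Mathlib.Algebra.Polynomial.Inductions
import Mathlib.Data.Int.ConditionallyCompleteOrder
import Mathlib.Data.Int.Star
import Mathlib.Algebra.Order.Ring.Star
import Mathlib.Algebra.Order.Archimedean.Real.Basic
import Mathlib.Data.List.GetD
import Mathlib.Data.List.Lookmap
import Mathlib.Tactic.Polynomial.Basic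
import Mathlib.Topology.Sheaves.Presheaf
import Mathlib.Topology.Algebra.Module.ModuleTopology
import Mathlib.Tactic.Monotonicity.Lemmas
import Mathlib.Analysis.InnerProductSpace.Basic
import Mathlib.Analysis.Calculus.Deriv.Pow
import Mathlib.Analysis.Calculus.SmoothSeries
import Mathlib.RingTheory.PiTensorProduct
import Mathlib.RingTheory.PowerSeries.Derivative
import Mathlib.RingTheory.PowerSeries.NoZeroDivisors
import Mathlib.Analysis.Calculus.Deriv.Polynomial
import Mathlib.Topology.Algebra.Polynomial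

-- ======== part 0: formerly Pool.Agent.MP_187b32_an.Prof.Tube
section MrgPart0

/-!
A scalar differential equation with parameters has a solution between two barriers, continuous in
the parameter.
-/

open Set

namespace Pool.Agent.MP_187b32_an.Prof

lemma fence {V V' lo hi lo' hi' : ℝ → ℝ} {a b : ℝ} (hV : ContinuousOn V (Icc a b))
    (hV' : ∀ τ ∈ Ico a b, HasDerivWithinAt V (V' τ) (Ici τ) τ)
    (hlo : ∀ τ, HasDerivAt lo (lo' τ) τ) (hhi : ∀ τ, HasDerivAt hi (hi' τ) τ)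
    (h1 : ∀ τ ∈ Ico a b, V τ = hi τ → V' τ < hi' τ) (h2 : ∀ τ ∈ Ico a b, V τ = lo τ → lo' τ < V' τ)
    (h0 : V a ∈ Icc (lo a) (hi a)) : ∀ τ ∈ Icc a b, V τ ∈ Icc (lo τ) (hi τ) := by
  intro τ hτ
  refine ⟨?_, image_le_of_deriv_right_lt_deriv_boundary' hV hV' h0.2
    (fun x _ => (hhi x).continuousAt.continuousWithinAt)
    (fun x _ => (hhi x).hasDerivWithinAt) h1 hτ⟩
  have := image_le_of_deriv_right_lt_deriv_boundary' (f := fun x => -V x) (f' := fun x => -V' x)
    (B := fun x => -lo x) (B' := fun x => -lo' x) hV.neg (fun x hx => (hV' x hx).neg)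
    (neg_le_neg h0.1) (fun x _ => (hlo x).continuousAt.neg.continuousWithinAt)
    (fun x _ => (hlo x).neg.hasDerivWithinAt)
    (fun x hx h => neg_lt_neg (h2 x hx (neg_injective h))) hτ
  exact neg_le_neg_iff.1 this

lemma ici_of_icc {V : ℝ → ℝ} {v a b τ : ℝ} (hτ : τ ∈ Ico a b)
    (h : HasDerivWithinAt V v (Icc a b) τ) : HasDerivWithinAt V v (Ici τ) τ :=
  h.mono_of_mem_nhdsWithin (Icc_mem_nhdsGE_of_mem hτ)

variable {P : Type} [TopologicalSpace P] [CompactSpace P]

lemma tube_bound {E : Type} [TopologicalSpace E] {K : Set E} (hK : IsCompact K) {g : P × E → ℝ}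
    (hg : ContinuousOn g (univ ×ˢ K)) : ∃ L : ℝ, 0 ≤ L ∧ ∀ p, ∀ x ∈ K, |g (p, x)| ≤ L := by
  obtain ⟨L, hL⟩ := (isCompact_univ.prod hK).exists_bound_of_continuousOn hg
  exact ⟨max L 0, le_max_right _ _, fun p x hx =>
    (hL (p, x) ⟨mem_univ _, hx⟩).trans (le_max_left _ _)⟩

theorem tube_ode {F : P → ℝ → ℝ → ℝ} {lo hi lo' hi' : P → ℝ → ℝ} {a b : ℝ} (hab : a ≤ b)
    (hlo : Continuous fun q : P × ℝ => lo q.1 q.2) (hhi : Continuous fun q : P × ℝ => hi q.1 q.2)
    (hle : ∀ p, ∀ τ ∈ Icc a b, lo p τ ≤ hi p τ)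
    (hF : ContinuousOn (fun q : P × ℝ × ℝ => F q.1 q.2.1 q.2.2)
      {q | q.2.1 ∈ Icc a b ∧ q.2.2 ∈ Icc (lo q.1 q.2.1) (hi q.1 q.2.1)})
    {L : ℝ} (hL0 : 0 ≤ L) (hL : ∀ p, ∀ τ ∈ Icc a b, ∀ v ∈ Icc (lo p τ) (hi p τ),
      ∀ w ∈ Icc (lo p τ) (hi p τ), |F p τ v - F p τ w| ≤ L * |v - w|)
    (hlo' : ∀ p τ, HasDerivAt (lo p) (lo' p τ) τ) (hhi' : ∀ p τ, HasDerivAt (hi p) (hi' p τ) τ)
    (h1 : ∀ p, ∀ τ ∈ Ico a b, F p τ (hi p τ) < hi' p τ)
    (h2 : ∀ p, ∀ τ ∈ Ico a b, lo' p τ < F p τ (lo p τ))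
    {v0 : P → ℝ} (hv0 : Continuous v0) (h0 : ∀ p, v0 p ∈ Icc (lo p a) (hi p a)) :
    ∃ V : P → ℝ → ℝ, (∀ p, V p a = v0 p) ∧
      (∀ p, ∀ τ ∈ Icc a b, HasDerivWithinAt (V p) (F p τ (V p τ)) (Icc a b) τ ∧
        V p τ ∈ Icc (lo p τ) (hi p τ)) ∧ ∀ τ, Continuous fun p => V p τ := by
  let c : ℝ → ℝ := fun τ => projIcc a b hab τ
  have hc : Continuous c := continuous_subtype_val.comp continuous_projIcc
  have hcm : ∀ τ, c τ ∈ Icc a b := fun τ => (projIcc a b hab τ).2
  have hce : ∀ τ ∈ Icc a b, c τ = τ := fun τ hτ => by simp [c, projIcc_of_mem hab hτ]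
  let cl : P → ℝ → ℝ → ℝ := fun p τ v => max (lo p τ) (min (hi p τ) v)
  have hclm : ∀ p, ∀ τ ∈ Icc a b, ∀ v, cl p τ v ∈ Icc (lo p τ) (hi p τ) := fun p τ hτ v =>
    ⟨le_max_left _ _, max_le (hle p τ hτ) (min_le_left _ _)⟩
  have hcle : ∀ p τ, ∀ v ∈ Icc (lo p τ) (hi p τ), cl p τ v = v := fun p τ v hv => by
    simp [cl, min_eq_right hv.2, max_eq_right hv.1]
  have hcll : ∀ p τ v w, |cl p τ v - cl p τ w| ≤ |v - w| := fun p τ v w =>
    (abs_max_sub_max_le_max _ _ _ _).trans (max_le (by simp)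
      ((abs_min_sub_min_le_max _ _ _ _).trans (max_le (by simp) le_rfl)))
  let G : P × ℝ × ℝ → ℝ := fun q => F q.1 (c q.2.1) (cl q.1 (c q.2.1) q.2.2)
  have hG : Continuous G := by
    have h3 : Continuous fun q : P × ℝ × ℝ => (q.1, c q.2.1, cl q.1 (c q.2.1) q.2.2) := by
      have a1 : Continuous fun q : P × ℝ × ℝ => (q.1, c q.2.1) := by fun_prop
      exact continuous_fst.prodMk ((hc.comp (by fun_prop)).prodMk
        ((hlo.comp a1).max ((hhi.comp a1).min (by fun_prop))))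
    exact hF.comp_continuous h3 fun q => ⟨hcm _, hclm _ _ (hcm _) _⟩
  obtain ⟨B, hB0, hB⟩ := tube_bound (P := P) (isCompact_Icc (a := a) (b := b))
    (g := fun q => G (q.1, q.2, lo q.1 q.2)) (hG.comp (by fun_prop)).continuousOn
  obtain ⟨B', hB0', hB'⟩ := tube_bound (P := P) (isCompact_Icc (a := a) (b := b))
    (g := fun q => hi q.1 q.2 - lo q.1 q.2) (hhi.sub hlo).continuousOn
  have hGb : ∀ p, ∀ τ ∈ Icc a b, ∀ v, |G (p, τ, v)| ≤ B + L * B' := fun p τ hτ v => by
    have a1 := hB p τ hτ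
    have a2 := hB' p τ hτ
    have a3 := hL p τ hτ _ (hclm p τ hτ v) _ (hclm p τ hτ (lo p τ))
    have a4 := hclm p τ hτ v
    have a5 := hclm p τ hτ (lo p τ)
    have a6 : |cl p τ v - cl p τ (lo p τ)| ≤ B' :=
      abs_le.2 ⟨by linarith [a4.1, a5.2, le_abs_self (hi p τ - lo p τ)],
        by linarith [a4.2, a5.1, le_abs_self (hi p τ - lo p τ)]⟩
    simp only [G, hce τ hτ] at a1 ⊢
    have a7 := abs_sub_abs_le_abs_sub (F p τ (cl p τ v)) (F p τ (cl p τ (lo p τ)))
    nlinarith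
  let Φ : ℝ → C(P, ℝ) → C(P, ℝ) := fun τ u => ⟨fun p => G (p, τ, u p), by fun_prop⟩
  have hB1 : 0 ≤ B + L * B' := by positivity
  have hpl : IsPicardLindelof Φ (⟨a, left_mem_Icc.2 hab⟩ : Icc a b) ⟨v0, hv0⟩
      ⟨(B + L * B') * (b - a), mul_nonneg hB1 (sub_nonneg.2 hab)⟩ 0 ⟨B + L * B', hB1⟩ ⟨L, hL0⟩ := by
    refine ⟨fun τ hτ => LipschitzWith.lipschitzOnWith (LipschitzWith.of_dist_le_mul fun u w => ?_),
      fun u _ => Continuous.continuousOn ?_, fun τ hτ u _ => ?_, ?_⟩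
    · refine (ContinuousMap.dist_le (mul_nonneg hL0 dist_nonneg)).2 fun p => ?_
      have a1 := hL p τ hτ _ (hclm p τ hτ (u p)) _ (hclm p τ hτ (w p))
      have a2 := (hcll p τ (u p) (w p)).trans (ContinuousMap.dist_apply_le_dist (f := u) (g := w) p)
      simp only [Φ, G, ContinuousMap.coe_mk, hce τ hτ, Real.dist_eq]
      exact a1.trans (mul_le_mul_of_nonneg_left a2 hL0)
    · exact ContinuousMap.continuous_of_continuous_uncurry _
        (hG.comp (by fun_prop : Continuous fun q : ℝ × P => (q.2, q.1, u q.2)))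
    · exact (ContinuousMap.norm_le _ hB1).2 fun p => hGb p τ hτ _
    · simp only [sub_self, max_eq_left (sub_nonneg.2 hab), NNReal.coe_zero, sub_zero]
      exact le_rfl
  obtain ⟨α, hα0, hα⟩ := hpl.exists_eq_forall_mem_Icc_hasDerivWithinAt₀
  have hd : ∀ p, ∀ τ ∈ Icc a b, HasDerivWithinAt (fun τ => α τ p) (F p τ (cl p τ (α τ p)))
      (Icc a b) τ := fun p τ hτ => by
    have := (ContinuousMap.evalCLM ℝ p).hasFDerivAt.comp_hasDerivWithinAt τ (hα τ hτ)
    simpa [Φ, G, hce τ hτ, Function.comp_def] using this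
  have hin : ∀ p, ∀ τ ∈ Icc a b, α τ p ∈ Icc (lo p τ) (hi p τ) := fun p => by
    refine fence (V' := fun τ => F p τ (cl p τ (α τ p)))
      (fun τ hτ => (hd p τ hτ).continuousWithinAt)
      (fun τ hτ => ici_of_icc hτ (hd p τ (Ico_subset_Icc_self hτ))) (hlo' p) (hhi' p)
      (fun τ hτ h => ?_) (fun τ hτ h => ?_) (by simpa [show α a = _ from hα0] using h0 p)
    · rw [h, hcle p τ _ ⟨hle p τ (Ico_subset_Icc_self hτ), le_rfl⟩]
      exact h1 p τ hτ
    · rw [h, hcle p τ _ ⟨le_rfl, hle p τ (Ico_subset_Icc_self hτ)⟩]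
      exact h2 p τ hτ
  refine ⟨fun p τ => α τ p, fun p => by simp [show α a = _ from hα0], fun p τ hτ => ⟨?_, hin p τ hτ⟩,
    fun τ => (α τ).continuous⟩
  have := hd p τ hτ
  rwa [hcle p τ _ (hin p τ hτ)] at this

end Pool.Agent.MP_187b32_an.Prof

end MrgPart0

-- ======== part 1: formerly Pool.Agent.MP_187b32_an.Prof.Ball
section MrgPart1

/-!
Ball arithmetic at scale `2 ^ 128`, polynomials with ball coefficients, and a checker for
positivity of polynomial expressions on an interval.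
-/

open Polynomial

namespace Pool.Agent.MP_187b32_an.Prof

/-- A ball: centre and radius, both in units of `2 ^ (-128)`. -/
abbrev Ball := ℤ × ℕ

/-- The scale. -/
def sc : ℕ := 340282366920938463463374607431768211456

lemma sc_pos : (0 : ℝ) < sc := by norm_num [sc]

def Mem (x : ℝ) (a : Ball) : Prop := |x * sc - a.1| ≤ a.2

def badd (a b : Ball) : Ball := (a.1 + b.1, a.2 + b.2)
def bneg (a : Ball) : Ball := (-a.1, a.2)
def bmul (a b : Ball) : Ball :=
  (a.1 * b.1 / (sc : ℤ), (a.1.natAbs * b.2 + b.1.natAbs * a.2 + a.2 * b.2) / sc + 2)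
def bint (n : ℤ) : Ball := (n * (sc : ℤ), 0)
def bpos (a : Ball) : Bool := decide ((a.2 : ℤ) < a.1)

lemma Mem.add {x y : ℝ} {a b : Ball} (h1 : Mem x a) (h2 : Mem y b) : Mem (x + y) (badd a b) := by
  unfold Mem badd at *
  push_cast
  calc _ = |(x * sc - a.1) + (y * sc - b.1)| := by ring_nf
    _ ≤ _ := (abs_add_le _ _).trans (add_le_add h1 h2)

lemma Mem.neg {x : ℝ} {a : Ball} (h1 : Mem x a) : Mem (-x) (bneg a) := by
  unfold Mem bneg at *
  push_cast
  calc _ = |-(x * sc - a.1)| := by ring_nf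
    _ ≤ _ := by rwa [abs_neg]

lemma mem_int (n : ℤ) : Mem n (bint n) := by simp [Mem, bint]

lemma mem_zero : Mem 0 (0, 0) := by simp [Mem]

lemma Mem.mul {x y : ℝ} {a b : Ball} (h1 : Mem x a) (h2 : Mem y b) : Mem (x * y) (bmul a b) := by
  unfold Mem bmul at *
  have hs := sc_pos
  set ρ : ℕ := a.1.natAbs * b.2 + b.1.natAbs * a.2 + a.2 * b.2 with hρ
  have e1 : |(x * sc) * (y * sc) - (a.1 * b.1 : ℤ)| ≤ ρ := by
    have : (x * sc) * (y * sc) - ((a.1 * b.1 : ℤ) : ℝ) = a.1 * (y * sc - b.1) + b.1 * (x * sc - a.1)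
        + (x * sc - a.1) * (y * sc - b.1) := by push_cast; ring
    rw [this, hρ]
    push_cast
    simp only [Nat.cast_natAbs, Int.cast_abs]
    refine (abs_add_three _ _ _).trans ?_
    simp only [abs_mul]
    gcongr
  have hsz : (0 : ℤ) < (sc : ℤ) := by norm_num [sc]
  have e2 : ((a.1 * b.1 / (sc : ℤ) : ℤ) : ℝ) * sc ≤ (a.1 * b.1 : ℤ) := by
    exact_mod_cast Int.ediv_mul_le _ hsz.ne'
  have e3 : ((a.1 * b.1 : ℤ) : ℝ) < (((a.1 * b.1 / (sc : ℤ) : ℤ) : ℝ) + 1) * sc := by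
    exact_mod_cast Int.lt_ediv_add_one_mul_self _ hsz
  have e4 : (ρ : ℝ) < (((ρ / sc : ℕ) : ℝ) + 1) * sc := by
    have := Nat.lt_div_mul_add (a := ρ) (b := sc) (by norm_num [sc])
    have h' : (ρ : ℝ) < ((ρ / sc : ℕ) : ℝ) * sc + sc := by exact_mod_cast this
    linarith
  rw [abs_le] at e1 ⊢
  simp only [Nat.cast_add, Nat.cast_ofNat]
  constructor
  · refine le_of_mul_le_mul_right ?_ hs
    nlinarith [e1.1]
  · refine le_of_mul_le_mul_right ?_ hs
    nlinarith [e1.2]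

lemma Mem.pos {x : ℝ} {a : Ball} (h1 : Mem x a) (h : bpos a = true) : 0 < x := by
  unfold Mem at h1
  have h2 : ((a.2 : ℤ) : ℝ) < a.1 := by exact_mod_cast of_decide_eq_true h
  have h3 := (abs_le.1 h1).1
  push_cast at h2
  exact pos_of_mul_pos_of_pos_right' (by linarith : 0 < x * sc)
where pos_of_mul_pos_of_pos_right' {x : ℝ} (h : 0 < x * sc) : 0 < x :=
  (mul_pos_iff_of_pos_right sc_pos).1 h

/-! Polynomials with ball coefficients. -/

def padd : List Ball → List Ball → List Ball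
  | [], Q => Q
  | a :: P, [] => a :: P
  | a :: P, b :: Q => badd a b :: padd P Q

def psm (a : Ball) (P : List Ball) : List Ball := P.map (bmul a)
def pneg (P : List Ball) : List Ball := P.map bneg

def pmul : List Ball → List Ball → List Ball
  | [], _ => []
  | a :: P, Q => padd (psm a Q) ((0, 0) :: pmul P Q)

def pder : List Ball → List Ball
  | [] => []
  | _ :: P => padd P ((0, 0) :: pder P)

def horner (x : Ball) : List Ball → Ball
  | [] => (0, 0)
  | a :: P => badd a (bmul x (horner x P))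

inductive PMem : List Ball → ℝ[X] → Prop
  | nil : PMem [] 0
  | cons {a : Ball} {P : List Ball} {c : ℝ} {p : ℝ[X]} :
      Mem c a → PMem P p → PMem (a :: P) (C c + X * p)

lemma PMem.of_eq {P : List Ball} {p q : ℝ[X]} (h : PMem P p) (e : p = q) : PMem P q := e ▸ h

lemma PMem.add {P Q : List Ball} {p q : ℝ[X]} (h1 : PMem P p) (h2 : PMem Q q) :
    PMem (padd P Q) (p + q) := by
  induction h1 generalizing Q q with
  | nil => simpa [padd] using h2
  | cons ha hP ih =>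
    cases h2 with
    | nil => simpa [padd] using PMem.cons ha hP
    | cons hb hQ => exact (PMem.cons (ha.add hb) (ih hQ)).of_eq (by rw [C_add]; ring)

lemma PMem.sm {a : Ball} {c : ℝ} (ha : Mem c a) {P : List Ball} {p : ℝ[X]} (h : PMem P p) :
    PMem (psm a P) (C c * p) := by
  induction h with
  | nil => simpa [psm] using PMem.nil
  | cons hb _ ih => exact (PMem.cons (ha.mul hb) ih).of_eq (by rw [C_mul]; ring)

lemma PMem.neg {P : List Ball} {p : ℝ[X]} (h : PMem P p) : PMem (pneg P) (-p) := by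
  induction h with
  | nil => simpa [pneg] using PMem.nil
  | cons hb _ ih => exact (PMem.cons hb.neg ih).of_eq (by rw [C_neg]; ring)

lemma PMem.shift {P : List Ball} {p : ℝ[X]} (h : PMem P p) : PMem ((0, 0) :: P) (X * p) :=
  (PMem.cons mem_zero h).of_eq (by simp)

lemma PMem.mul {P Q : List Ball} {p q : ℝ[X]} (h1 : PMem P p) (h2 : PMem Q q) :
    PMem (pmul P Q) (p * q) := by
  induction h1 with
  | nil => simpa [pmul] using PMem.nil
  | cons ha _ ih => exact ((PMem.sm ha h2).add ih.shift).of_eq (by ring)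

lemma PMem.der {P : List Ball} {p : ℝ[X]} (h : PMem P p) : PMem (pder P) (derivative p) := by
  induction h with
  | nil => simpa [pder] using PMem.nil
  | cons _ hP ih => exact (hP.add ih.shift).of_eq (by simp)

lemma PMem.const {a : Ball} {c : ℝ} (ha : Mem c a) : PMem [a] (C c) :=
  (PMem.cons ha PMem.nil).of_eq (by simp)

lemma PMem.horner {P : List Ball} {p : ℝ[X]} (h : PMem P p) {x : Ball} {t : ℝ} (ht : Mem t x) :
    Mem (p.eval t) (horner x P) := by
  induction h with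
  | nil => simpa [Prof.horner] using mem_zero
  | cons ha _ ih => simpa [Prof.horner] using ha.add (ht.mul ih)

lemma PMem.tail {P : List Ball} {p : ℝ[X]} (h : PMem P p) :
    PMem P.tail p.divX ∧ Mem (p.coeff 0) (P.headD (0, 0)) := by
  cases h with
  | nil => simpa using ⟨PMem.nil, mem_zero⟩
  | @cons a P c p ha hP =>
    refine ⟨hP.of_eq ?_, by simpa using ha⟩
    ext n
    simp [coeff_divX]

/-- The polynomial with exact coefficients given by a list of scaled integers. -/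
noncomputable def ofInts : List ℤ → ℝ[X]
  | [] => 0
  | c :: l => C ((c : ℝ) / sc) + X * ofInts l

def exact (l : List ℤ) : List Ball := l.map fun c => (c, 0)

lemma mem_exact (c : ℤ) : Mem ((c : ℝ) / sc) (c, 0) := by
  simp [Mem, div_mul_cancel₀ _ sc_pos.ne']

lemma pmem_exact : ∀ l : List ℤ, PMem (exact l) (ofInts l)
  | [] => PMem.nil
  | c :: l => PMem.cons (mem_exact c) (pmem_exact l)

/-! Expressions. -/

inductive Ex
  | var (i : ℕ)
  | int (n : ℤ)
  | add (a b : Ex)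
  | mul (a b : Ex)
  | neg (a : Ex)

instance : Add Ex := ⟨Ex.add⟩
instance : Mul Ex := ⟨Ex.mul⟩
instance : Neg Ex := ⟨Ex.neg⟩
instance : Sub Ex := ⟨fun a b => Ex.add a (Ex.neg b)⟩

def Ex.ev {R : Type} [CommRing R] (env : List R) : Ex → R
  | .var i => env.getD i 0
  | .int n => n
  | .add a b => a.ev env + b.ev env
  | .mul a b => a.ev env * b.ev env
  | .neg a => -a.ev env

def Ex.evB (env : List Ball) : Ex → Ball
  | .var i => env.getD i (0, 0)
  | .int n => bint n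
  | .add a b => badd (a.evB env) (b.evB env)
  | .mul a b => bmul (a.evB env) (b.evB env)
  | .neg a => bneg (a.evB env)

def Ex.evP (env : List (List Ball)) : Ex → List Ball
  | .var i => env.getD i []
  | .int n => [bint n]
  | .add a b => padd (a.evP env) (b.evP env)
  | .mul a b => pmul (a.evP env) (b.evP env)
  | .neg a => pneg (a.evP env)

lemma forall₂_getD {α β : Type} {r : α → β → Prop} {a : α} {b : β} (h0 : r a b) {l : List α}
    {m : List β} (h : List.Forall₂ r l m) (i : ℕ) : r (l.getD i a) (m.getD i b) := by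
  induction h generalizing i with
  | nil => simpa using h0
  | cons h1 _ ih => cases i with
    | zero => simpa using h1
    | succ i => simpa using ih i

lemma Ex.mem {x : List ℝ} {env : List Ball} (h : List.Forall₂ Mem x env) (e : Ex) :
    Mem (e.ev x) (e.evB env) := by
  induction e with
  | var i => exact forall₂_getD mem_zero h i
  | int n => exact mem_int n
  | add a b ha hb => exact ha.add hb
  | mul a b ha hb => exact ha.mul hb
  | neg a ha => exact ha.neg

lemma Ex.pmem {env : List (List Ball)} {x : List ℝ[X]} (h : List.Forall₂ PMem env x) (e : Ex) :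
    PMem (e.evP env) (e.ev x) := by
  induction e with
  | var i => exact forall₂_getD PMem.nil h i
  | int n => exact (PMem.const (mem_int n)).of_eq (by simp [Ex.ev])
  | add a b ha hb => exact ha.add hb
  | mul a b ha hb => exact ha.mul hb
  | neg a ha => exact ha.neg

lemma Ex.map {R S : Type} [CommRing R] [CommRing S] (φ : R →+* S) (x : List R) (e : Ex) :
    φ (e.ev x) = e.ev (x.map φ) := by
  induction e with
  | var i =>
    simp only [Ex.ev]
    rw [← map_zero φ, List.getD_map]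
  | int n => simp [Ex.ev]
  | add a b ha hb => simp [Ex.ev, ha, hb]
  | mul a b ha hb => simp [Ex.ev, ha, hb]
  | neg a ha => simp [Ex.ev, ha]

/-- Check `f` on `n` consecutive balls of radius `h` starting at `a`. -/
def sweep (f : Ball → Bool) (h : ℕ) : ℕ → ℤ → Bool
  | 0, _ => true
  | n + 1, a => f (a + h, h) && sweep f h n (a + 2 * h)

lemma sweep_sound {f : Ball → Bool} {h : ℕ} {t : ℝ} : ∀ (n : ℕ) (a : ℤ),
    sweep f h (n + 1) a = true → (a : ℝ) ≤ t * sc → t * sc ≤ a + 2 * h * (n + 1) →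
      ∃ x, Mem t x ∧ f x = true := by
  intro n
  induction n with
  | zero =>
    intro a hs h1 h2
    simp only [sweep, Bool.and_true] at hs
    refine ⟨_, ?_, hs⟩
    simp only [Mem, abs_le]
    push_cast at h2 ⊢
    constructor <;> linarith
  | succ n ih =>
    intro a hs h1 h2
    rw [sweep, Bool.and_eq_true] at hs
    by_cases hc : t * sc ≤ a + 2 * h
    · refine ⟨_, ?_, hs.1⟩
      simp only [Mem, abs_le]
      push_cast
      constructor <;> linarith
    · refine ih _ hs.2 ?_ ?_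
      · push_cast; linarith
      · push_cast at h2 ⊢; linarith

/-- All expressions `es` in the values of the polynomials `Ps` are positive on
`[a, a + 2 h (n + 1)] / sc`. -/
def chk (Ps : List (List Ball)) (es : List Ex) (a : ℤ) (h n : ℕ) : Bool :=
  sweep (fun x => es.all fun e => bpos (e.evB (Ps.map (horner x)))) h (n + 1) a

lemma chk_sound {Ps : List (List Ball)} {es : List Ex} {a : ℤ} {h n : ℕ}
    (hc : chk Ps es a h n = true) {ps : List ℝ[X]} (hp : List.Forall₂ PMem Ps ps) {t : ℝ}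
    (h1 : (a : ℝ) ≤ t * sc) (h2 : t * sc ≤ a + 2 * h * (n + 1)) :
    ∀ e ∈ es, 0 < e.ev (ps.map (eval t)) := by
  obtain ⟨x, hx, hf⟩ := sweep_sound n a hc h1 h2
  intro e he
  refine (Ex.mem ?_ e).pos (List.all_eq_true.1 hf e he)
  clear hf hc
  induction hp with
  | nil => exact List.Forall₂.nil
  | cons h _ ih => exact List.Forall₂.cons (h.horner hx) ih

end Pool.Agent.MP_187b32_an.Prof

end MrgPart1

-- ======== part 2: formerly Pool.Agent.MP_187b32_an.Prof.BB
section MrgPart2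

/-!
Analytic solutions of Briot-Bouquet equations with parameters.
-/

open PowerSeries Finset

namespace Pool.Agent.MP_187b32_an.Prof

lemma Ex.ind {R : Type} [CommRing R] {Q : R → Prop} (h0 : ∀ n : ℤ, Q n)
    (ha : ∀ a b, Q a → Q b → Q (a + b)) (hm : ∀ a b, Q a → Q b → Q (a * b))
    (hn : ∀ a, Q a → Q (-a)) {env : List R} (h : ∀ z ∈ env, Q z) (e : Ex) : Q (e.ev env) := by
  induction e with
  | var i =>
    simp only [Ex.ev]
    rcases lt_or_ge i env.length with hi | hi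
    · rw [List.getD_eq_getElem _ _ hi]; exact h _ (List.getElem_mem hi)
    · rw [List.getD_eq_default _ _ hi]; simpa using h0 0
  | int n => exact h0 n
  | add a b h1 h2 => exact ha _ _ h1 h2
  | mul a b h1 h2 => exact hm _ _ h1 h2
  | neg a h1 => exact hn _ h1

lemma Ex.dvd_sub {R : Type} [CommRing R] {c : R} {env env' : List R}
    (h : List.Forall₂ (fun a b => c ∣ a - b) env env') (e : Ex) : c ∣ e.ev env - e.ev env' := by
  induction e with
  | var i => exact forall₂_getD (r := fun a b => c ∣ a - b) (by simp) h i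
  | int n => simp [Ex.ev]
  | add a b h1 h2 => convert dvd_add h1 h2 using 1; simp only [Ex.ev]; ring
  | mul a b h1 h2 =>
    convert dvd_add (h1.mul_right (b.ev env)) (h2.mul_left (a.ev env')) using 1
    simp only [Ex.ev]; ring
  | neg a h1 => convert h1.neg_right using 1; simp only [Ex.ev]; ring

/-- Weighted partial sums of the absolute values of the coefficients. -/
noncomputable def nm (ν : ℝ) (m : ℕ) (y : ℝ⟦X⟧) : ℝ := ∑ n ∈ range m, |coeff n y| * ν ^ n

variable {ν : ℝ} {m : ℕ}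

lemma nm_nonneg (hν : 0 ≤ ν) (y : ℝ⟦X⟧) : 0 ≤ nm ν m y :=
  sum_nonneg fun _ _ => by positivity

lemma nm_add (hν : 0 ≤ ν) (y z : ℝ⟦X⟧) : nm ν m (y + z) ≤ nm ν m y + nm ν m z := by
  simp only [nm, ← sum_add_distrib, ← add_mul, map_add]
  exact sum_le_sum fun n _ => mul_le_mul_of_nonneg_right (abs_add_le _ _) (by positivity)

lemma nm_neg (y : ℝ⟦X⟧) : nm ν m (-y) = nm ν m y := by simp [nm]

lemma nm_single (hν : 0 ≤ ν) {y : ℝ⟦X⟧} {k : ℕ} (h : ∀ n ≠ k, coeff n y = 0) :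
    nm ν m y ≤ |coeff k y| * ν ^ k := by
  unfold nm
  by_cases hk : k ∈ range m
  · rw [sum_eq_single_of_mem k hk fun n _ hn => by simp [h n hn]]
  · rw [sum_eq_zero fun n hn => by simp [h n (fun e => hk (e ▸ hn))]]; positivity

lemma nm_C (hν : 0 ≤ ν) (c : ℝ) : nm ν m (C c) ≤ |c| := by
  simpa using nm_single (m := m) hν (y := C c) (k := 0) fun n hn => by simp [coeff_C, hn]

lemma nm_X (hν : 0 ≤ ν) : nm ν m X ≤ ν := by
  simpa using nm_single (m := m) hν (y := X) (k := 1) fun n hn => by simp [coeff_X, hn]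

lemma sum_anti_le (f g : ℕ → ℝ) (hf : ∀ n, 0 ≤ f n) (hg : ∀ n, 0 ≤ g n) :
    ∑ n ∈ range m, ∑ q ∈ antidiagonal n, f q.1 * g q.2 ≤ (∑ n ∈ range m, f n) * ∑ n ∈ range m, g n := by
  rw [sum_mul_sum, ← sum_product', ← sum_biUnion]
  · refine sum_le_sum_of_subset_of_nonneg (fun q hq => ?_) fun q _ _ => mul_nonneg (hf _) (hg _)
    simp only [mem_biUnion, mem_range, Finset.HasAntidiagonal.mem_antidiagonal, mem_product] at hq ⊢
    omega
  · intro a _ b _ hab
    refine disjoint_left.2 fun q h1 h2 => hab ?_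
    simp only [Finset.HasAntidiagonal.mem_antidiagonal] at h1 h2
    omega

lemma nm_aux (hν : 0 ≤ ν) (y z : ℝ⟦X⟧) :
    ∑ n ∈ range m, (∑ q ∈ antidiagonal n, |coeff q.1 y| * |coeff q.2 z|) * ν ^ n ≤
      nm ν m y * nm ν m z := by
  refine le_trans (le_of_eq (sum_congr rfl fun n _ => ?_)) (sum_anti_le _ _
    (fun n => (by positivity : 0 ≤ |coeff n y| * ν ^ n)) fun n => (by positivity : 0 ≤ |coeff n z| * ν ^ n))
  rw [sum_mul]
  refine sum_congr rfl fun q hq => ?_
  rw [← Finset.HasAntidiagonal.mem_antidiagonal.1 hq]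
  ring

lemma nm_mul (hν : 0 ≤ ν) (y z : ℝ⟦X⟧) : nm ν m (y * z) ≤ nm ν m y * nm ν m z := by
  refine le_trans (sum_le_sum fun n _ => mul_le_mul_of_nonneg_right ?_ (by positivity))
    (nm_aux hν y z)
  rw [coeff_mul]
  exact (abs_sum_le_sum_abs _ _).trans (le_of_eq (sum_congr rfl fun q _ => abs_mul _ _))

lemma Ex.bound (e : Ex) {R : ℝ} (hR : 0 ≤ R) : ∃ B : ℝ, 0 ≤ B ∧ ∀ (ν : ℝ) (m : ℕ)
    (env : List ℝ⟦X⟧), 0 ≤ ν → (∀ z ∈ env, nm ν m z ≤ R) → nm ν m (e.ev env) ≤ B := by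
  induction e with
  | var i =>
    refine ⟨R, hR, fun ν m env hν h => ?_⟩
    simp only [Ex.ev]
    rcases lt_or_ge i env.length with hi | hi
    · rw [List.getD_eq_getElem _ _ hi]; exact h _ (List.getElem_mem hi)
    · rw [List.getD_eq_default _ _ hi]; simpa [nm] using hR
  | int n => exact ⟨|(n : ℝ)|, abs_nonneg _, fun ν m env hν _ => by
      simpa [Ex.ev] using nm_C (m := m) hν (n : ℝ)⟩
  | add a b h1 h2 =>
    obtain ⟨A, hA, h1⟩ := h1
    obtain ⟨B, hB, h2⟩ := h2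
    exact ⟨A + B, by positivity, fun ν m env hν h =>
      (nm_add hν _ _).trans (add_le_add (h1 ν m env hν h) (h2 ν m env hν h))⟩
  | mul a b h1 h2 =>
    obtain ⟨A, hA, h1⟩ := h1
    obtain ⟨B, hB, h2⟩ := h2
    exact ⟨A * B, by positivity, fun ν m env hν h => (nm_mul hν _ _).trans
      (mul_le_mul (h1 ν m env hν h) (h2 ν m env hν h) (nm_nonneg hν _) hA)⟩
  | neg a h1 =>
    obtain ⟨A, hA, h1⟩ := h1
    exact ⟨A, hA, fun ν m env hν h => (nm_neg _).trans_le (h1 ν m env hν h)⟩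

/-- The Euler operator. -/
noncomputable def th (y : ℝ⟦X⟧) : ℝ⟦X⟧ := X * d⁄dX ℝ y

lemma coeff_th (y : ℝ⟦X⟧) (n : ℕ) : coeff n (th y) = n * coeff n y := by
  cases n with
  | zero => simp [th]
  | succ n => simp [th, coeff_succ_X_mul, coeff_derivative, mul_comm]

lemma th_dvd {n : ℕ} {y z : ℝ⟦X⟧} (h : X ^ n ∣ y - z) : X ^ n ∣ th y - th z := by
  rw [X_pow_dvd_iff] at h ⊢
  intro k hk
  have := h k hk
  rw [map_sub] at this ⊢
  rw [coeff_th, coeff_th, ← mul_sub, this, mul_zero]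

lemma abs_coeff_mul_th (g y : ℝ⟦X⟧) (n : ℕ) :
    |coeff n (g * th y)| ≤ n * ∑ q ∈ antidiagonal n, |coeff q.1 g| * |coeff q.2 y| := by
  rw [coeff_mul, mul_sum]
  refine (abs_sum_le_sum_abs _ _).trans (sum_le_sum fun q hq => ?_)
  have h1 : (q.2 : ℝ) ≤ n := by
    have := Finset.HasAntidiagonal.mem_antidiagonal.1 hq
    exact_mod_cast (by omega : q.2 ≤ n)
  rw [coeff_th, abs_mul, abs_mul, Nat.abs_cast]
  calc _ = q.2 * (|coeff q.1 g| * |coeff q.2 y|) := by ring
    _ ≤ _ := by gcongr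

noncomputable def solAux (step : ℕ → ℝ⟦X⟧ → ℝ) (n : ℕ) : ℝ :=
  step n (PowerSeries.mk fun k => if _ : k < n then solAux step k else 0)

lemma exists_formal (step : ℕ → ℝ⟦X⟧ → ℝ)
    (h : ∀ n y z, X ^ n ∣ y - z → step n y = step n z) : ∃ y, ∀ n, coeff n y = step n y := by
  refine ⟨PowerSeries.mk (solAux step), fun n => ?_⟩
  rw [coeff_mk, solAux]
  refine h _ _ _ (X_pow_dvd_iff.2 fun k hk => ?_)
  simp [hk]

/-- The right side of the Briot-Bouquet equation. -/
noncomputable def rhs (e1 e3 : Ex) (π : List ℝ) (y : ℝ⟦X⟧) : ℝ⟦X⟧ :=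
  e1.ev (X :: y :: π.map C) + e3.ev (X :: y :: π.map C) * th y

lemma rhs_dvd (e1 e3 : Ex) (π : List ℝ) {n : ℕ} {y z : ℝ⟦X⟧} (h : X ^ n ∣ y - z) :
    X ^ n ∣ rhs e1 e3 π y - rhs e1 e3 π z := by
  have h1 : List.Forall₂ (fun a b : ℝ⟦X⟧ => X ^ n ∣ a - b) (X :: y :: π.map C)
      (X :: z :: π.map C) :=
    .cons (by simp) (.cons h (List.forall₂_same.2 fun _ _ => by simp))
  convert dvd_add (e1.dvd_sub h1) (dvd_add ((e3.dvd_sub h1).mul_right (th y))
    ((th_dvd h).mul_left (e3.ev (X :: z :: π.map C)))) using 1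
  unfold rhs
  ring

variable {P : Type} [TopologicalSpace P]

lemma rhs_cont (e1 e3 : Ex) {πs : List (P → ℝ)} (hπ : ∀ f ∈ πs, Continuous f) {n : ℕ}
    {y : P → ℝ⟦X⟧} (h : ∀ k < n, Continuous fun p => coeff k (y p)) :
    ∀ k < n, Continuous fun p => coeff k (rhs e1 e3 (πs.map fun f => f p) (y p)) := by
  let Q : (P → ℝ⟦X⟧) → Prop := fun z => ∀ k < n, Continuous fun p => coeff k (z p)
  have hm : ∀ a b, Q a → Q b → Q (a * b) := fun a b ha hb k hk => by
    simp only [Pi.mul_apply, coeff_mul]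
    refine continuous_finsetSum _ fun q hq => ?_
    have := Finset.HasAntidiagonal.mem_antidiagonal.1 hq
    exact (ha _ (by omega)).mul (hb _ (by omega))
  have ha : ∀ a b, Q a → Q b → Q (a + b) := fun a b ha hb k hk => by
    simp only [Pi.add_apply, map_add]
    exact (ha k hk).add (hb k hk)
  have key : ∀ e : Ex, Q fun p => e.ev (X :: y p :: (πs.map fun f => f p).map C) := fun e => by
    have h1 := Ex.ind (Q := Q) (fun j k _ => by simpa using continuous_const) ha hm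
      (fun a ha k hk => by simp only [Pi.neg_apply, map_neg]; exact (ha k hk).neg)
      (env := (fun _ => X) :: y :: πs.map fun f p => C (f p)) (fun z hz => ?_) e
    · convert h1 using 2 with p
      have := e.map (Pi.evalRingHom (fun _ : P => ℝ⟦X⟧) p)
        ((fun _ => X) :: y :: πs.map fun f p => C (f p))
      simpa [Function.comp_def] using this.symm
    · simp only [List.mem_cons, List.mem_map] at hz
      rcases hz with rfl | rfl | ⟨f, hf, rfl⟩
      · exact fun k _ => continuous_const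
      · exact h
      · intro k _
        simp only [coeff_C]
        split_ifs
        · exact hπ f hf
        · exact continuous_const
  exact ha _ _ (key e1) (hm _ (fun p => th (y p)) (key e3) fun k hk => by
    simp only [coeff_th]; exact continuous_const.mul (h k hk))

theorem briot_bouquet [CompactSpace P] (e1 e3 : Ex) {πs : List (P → ℝ)}
    (hπ : ∀ f ∈ πs, Continuous f) {lam α f0 : P → ℝ} (hl : Continuous lam) (hα : Continuous α)
    (hf : Continuous f0) {c : ℝ} (hc : 0 < c) (hd : ∀ p (n : ℕ), c * (n + 1) ≤ |lam p * n + α p|) :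
    ∃ (ν R : ℝ) (y : P → ℝ⟦X⟧), 0 < ν ∧ (∀ p n, |coeff n (y p)| * ν ^ n ≤ R) ∧
      (∀ n, Continuous fun p => coeff n (y p)) ∧ ∀ p, C (lam p) * th (y p) + C (α p) * y p =
        C (f0 p) + X * rhs e1 e3 (πs.map fun f => f p) (y p) := by
  have hne : ∀ p (n : ℕ), lam p * n + α p ≠ 0 := fun p n h => by
    have := hd p n
    rw [h, abs_zero] at this
    exact absurd this (not_le.2 (by positivity))
  choose y hy using fun p => exists_formal (fun n y =>
    coeff n (C (f0 p) + X * rhs e1 e3 (πs.map fun f => f p) y) / (lam p * n + α p)) fun n y z h => by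
      congr 1
      cases n with
      | zero => simp
      | succ n =>
        have := X_pow_dvd_iff.1 (rhs_dvd e1 e3 (πs.map fun f => f p) h) n (Nat.lt_succ_self n)
        simp only [map_add, coeff_succ_X_mul]
        rw [map_sub] at this
        linarith
  have hb : ∀ l : List (P → ℝ), (∀ f ∈ l, Continuous f) → ∃ B : ℝ, 1 ≤ B ∧ ∀ f ∈ l, ∀ p, |f p| ≤ B := by
    intro l hl
    induction l with
    | nil => exact ⟨1, le_rfl, by simp⟩
    | cons f l ih =>
      obtain ⟨B, hB, h⟩ := ih fun g hg => hl g (List.mem_cons_of_mem _ hg)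
      obtain ⟨A, hA⟩ := isCompact_univ.exists_bound_of_continuousOn
        (hl f List.mem_cons_self).continuousOn
      refine ⟨max A B, le_max_of_le_right hB, fun g hg p => ?_⟩
      rcases List.mem_cons.1 hg with rfl | hg
      · exact le_max_of_le_left (hA p trivial)
      · exact le_max_of_le_right (h g hg p)
  obtain ⟨B, hB1, hB⟩ := hb (f0 :: πs) fun f h => by
    rcases List.mem_cons.1 h with rfl | h
    exacts [hf, hπ f h]
  set R : ℝ := B + B / c + 1 with hR
  have hBc : 0 ≤ B / c := by positivity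
  have hR0 : 0 ≤ R := by positivity
  obtain ⟨B1, hB10, hB1'⟩ := e1.bound hR0
  obtain ⟨B3, hB30, hB3'⟩ := e3.bound hR0
  set ν : ℝ := min 1 (c / (B1 + B3 * R + 1)) with hν
  have hν0 : 0 < ν := lt_min one_pos (by positivity)
  have hν1 : ν * (B1 + B3 * R) ≤ c := by
    have : ν ≤ c / (B1 + B3 * R + 1) := min_le_right _ _
    rw [le_div_iff₀ (by positivity)] at this
    nlinarith
  have key : ∀ p m, nm ν m (y p) ≤ R := fun p m => by
    induction m with
    | zero => simpa [nm] using hR0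
    | succ m ih =>
      set π := πs.map fun f => f p
      have henv : ∀ z ∈ X :: y p :: π.map C, nm ν m z ≤ R := fun z hz => by
        simp only [List.mem_cons, List.mem_map, π] at hz
        rcases hz with rfl | rfl | ⟨_, ⟨f, hf, rfl⟩, rfl⟩
        · linarith [nm_X (m := m) hν0.le, min_le_left 1 (c / (B1 + B3 * R + 1))]
        · exact ih
        · linarith [nm_C (m := m) hν0.le (f p), hB f (List.mem_cons_of_mem _ hf) p]
      have a1 := hB1' ν m _ hν0.le henv
      have a3 := (nm_aux (m := m) hν0.le (e3.ev (X :: y p :: π.map C)) (y p)).trans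
        (mul_le_mul (hB3' ν m _ hν0.le henv) ih (nm_nonneg hν0.le _) hB30)
      have a0 : |coeff 0 (y p)| ≤ B / c := by
        have h1 := hd p 0
        rw [hy, abs_div]
        simp only [Nat.cast_zero, zero_add, mul_one, mul_zero] at h1 ⊢
        simp only [coeff_zero_eq_constantCoeff, map_add, constantCoeff_C, map_mul, constantCoeff_X,
          zero_mul, add_zero]
        exact div_le_div₀ (by linarith) (hB f0 List.mem_cons_self p) hc h1
      have a4 : ∀ n, c * |coeff (n + 1) (y p)| ≤ |coeff n (e1.ev (X :: y p :: π.map C))| +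
          ∑ q ∈ antidiagonal n, |coeff q.1 (e3.ev (X :: y p :: π.map C))| * |coeff q.2 (y p)| := by
        intro n
        have h1 := hd p (n + 1)
        have h2 := abs_coeff_mul_th (e3.ev (X :: y p :: π.map C)) (y p) n
        have h3 : coeff (n + 1) (y p) * (lam p * (n + 1 : ℕ) + α p) =
            coeff n (e1.ev (X :: y p :: π.map C)) +
              coeff n (e3.ev (X :: y p :: π.map C) * th (y p)) := by
          rw [hy p (n + 1), div_mul_cancel₀ _ (hne p _)]
          simp [coeff_succ_X_mul, rhs, π]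
        have h4 := congrArg abs h3
        rw [abs_mul] at h4
        have h5 := abs_add_le (coeff n (e1.ev (X :: y p :: π.map C)))
          (coeff n (e3.ev (X :: y p :: π.map C) * th (y p)))
        set S := ∑ q ∈ antidiagonal n, |coeff q.1 (e3.ev (X :: y p :: π.map C))| * |coeff q.2 (y p)|
        have hS : 0 ≤ S := sum_nonneg fun _ _ => by positivity
        have h6 := mul_le_mul_of_nonneg_left h1 (abs_nonneg (coeff (n + 1) (y p)))
        have hn : (0 : ℝ) ≤ n := n.cast_nonneg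
        push_cast at h6 h4
        refine le_of_mul_le_mul_left ?_ (show (0 : ℝ) < n + 1 + 1 by positivity)
        nlinarith [abs_nonneg (coeff n (e1.ev (X :: y p :: π.map C)))]
      have a5 : c * ∑ n ∈ range m, |coeff (n + 1) (y p)| * ν ^ (n + 1) ≤ ν * (B1 + B3 * R) := by
        refine le_trans ?_ (mul_le_mul_of_nonneg_left (add_le_add a1 a3) hν0.le)
        rw [nm, ← sum_add_distrib, mul_sum, mul_sum]
        refine sum_le_sum fun n _ => ?_
        have := mul_le_mul_of_nonneg_right (a4 n) (show 0 ≤ ν ^ (n + 1) by positivity)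
        calc _ = c * |coeff (n + 1) (y p)| * ν ^ (n + 1) := by ring
          _ ≤ _ := this
          _ = _ := by ring
      have a6 : ∑ n ∈ range m, |coeff (n + 1) (y p)| * ν ^ (n + 1) ≤ 1 :=
        le_of_mul_le_mul_left (by linarith) hc
      rw [nm, sum_range_succ']
      simp only [pow_zero, mul_one]
      linarith
  refine ⟨ν, R, y, hν0, fun p n => le_trans ?_ (key p (n + 1)), fun n => ?_, fun p => ?_⟩
  · exact single_le_sum (f := fun n => |coeff n (y p)| * ν ^ n) (fun _ _ => by positivity)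
      (self_mem_range_succ n)
  · induction n using Nat.strong_induction_on with
    | _ n ih =>
      rw [funext fun p => hy p n]
      refine Continuous.div ?_ (by fun_prop) fun p => hne p n
      cases n with
      | zero => simpa using hf
      | succ n =>
        simpa [coeff_succ_X_mul, coeff_C] using rhs_cont e1 e3 hπ ih n (Nat.lt_succ_self n)
  · ext n
    have := hy p n
    rw [eq_div_iff (hne p n)] at this
    rw [← this, map_add, coeff_C_mul, coeff_C_mul, coeff_th]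
    ring

/-! Sums of power series. -/

/-- The sum of a power series. -/
noncomputable def ev (y : ℝ⟦X⟧) (t : ℝ) : ℝ := ∑' n, coeff n y * t ^ n

/-- The series converges absolutely at `t` with sum `v`. -/
def HS (t : ℝ) (y : ℝ⟦X⟧) (v : ℝ) : Prop :=
  (Summable fun n => ‖coeff n y * t ^ n‖) ∧ ev y t = v

lemma HS.add {t : ℝ} {y z : ℝ⟦X⟧} {v w : ℝ} (h1 : HS t y v) (h2 : HS t z w) :
    HS t (y + z) (v + w) := by
  refine ⟨(h1.1.add h2.1).of_nonneg_of_le (fun _ => norm_nonneg _) fun n => ?_, ?_⟩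
  · rw [map_add, add_mul]; exact norm_add_le _ _
  · rw [← h1.2, ← h2.2, ev, ev, ev, ← h1.1.of_norm.tsum_add h2.1.of_norm]
    simp [add_mul]

lemma HS.neg {t : ℝ} {y : ℝ⟦X⟧} {v : ℝ} (h1 : HS t y v) : HS t (-y) (-v) :=
  ⟨by simpa using h1.1, by simp [← h1.2, ev, tsum_neg]⟩

lemma HS.mul {t : ℝ} {y z : ℝ⟦X⟧} {v w : ℝ} (h1 : HS t y v) (h2 : HS t z w) :
    HS t (y * z) (v * w) := by
  have e : ∀ n, coeff n (y * z) * t ^ n =
      ∑ q ∈ antidiagonal n, coeff q.1 y * t ^ q.1 * (coeff q.2 z * t ^ q.2) := fun n => by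
    rw [coeff_mul, sum_mul]
    refine sum_congr rfl fun q hq => ?_
    rw [← Finset.HasAntidiagonal.mem_antidiagonal.1 hq]
    ring
  refine ⟨?_, ?_⟩
  · simpa only [e] using summable_norm_sum_mul_antidiagonal_of_summable_norm h1.1 h2.1
  · rw [← h1.2, ← h2.2, ev, ev, ev,
      tsum_mul_tsum_eq_tsum_sum_antidiagonal_of_summable_norm h1.1 h2.1]
    simp only [e]

lemma hs_single (t : ℝ) {y : ℝ⟦X⟧} {k : ℕ} (h : ∀ n ≠ k, coeff n y = 0) :
    HS t y (coeff k y * t ^ k) :=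
  ⟨(hasSum_single k fun n hn => by simp [h n hn]).summable,
    tsum_eq_single k fun n hn => by simp [h n hn]⟩

lemma hs_C (t c : ℝ) : HS t (C c) c := by
  simpa using hs_single t (y := C c) (k := 0) fun n hn => by simp [coeff_C, hn]

lemma hs_X (t : ℝ) : HS t X t := by
  simpa using hs_single t (y := X) (k := 1) fun n hn => by simp [coeff_X, hn]

lemma Ex.hs {t : ℝ} {env : List ℝ⟦X⟧} {x : List ℝ} (h : List.Forall₂ (HS t) env x) (e : Ex) :
    HS t (e.ev env) (e.ev x) := by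
  induction e with
  | var i => exact forall₂_getD (by simpa using hs_C t 0) h i
  | int n => simpa [Ex.ev] using hs_C t n
  | add a b ha hb => exact ha.add hb
  | mul a b ha hb => exact ha.mul hb
  | neg a ha => exact ha.neg

variable {R t : ℝ} {y : ℝ⟦X⟧}

lemma term_le (hν : 0 < ν) (h : ∀ n, |coeff n y| * ν ^ n ≤ R) (t : ℝ) (n : ℕ) :
    ‖coeff n y * t ^ n‖ ≤ R * (|t| / ν) ^ n := by
  rw [Real.norm_eq_abs, abs_mul, abs_pow, div_pow]
  calc _ = |coeff n y| * ν ^ n * (|t| ^ n / ν ^ n) := by field_simp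
    _ ≤ _ := mul_le_mul_of_nonneg_right (h n) (by positivity)

lemma hs_ev (hν : 0 < ν) (h : ∀ n, |coeff n y| * ν ^ n ≤ R) (ht : |t| < ν) : HS t y (ev y t) :=
  ⟨((summable_geometric_of_lt_one (by positivity) ((div_lt_one hν).2 ht)).mul_left R).of_nonneg_of_le
    (fun _ => norm_nonneg _) (term_le hν h t), rfl⟩

lemma ev_zero (y : ℝ⟦X⟧) : ev y 0 = coeff 0 y := by
  rw [ev, tsum_eq_single 0 fun n hn => by simp [hn]]
  simp

lemma ev_analytic (hν : 0 < ν) (h : ∀ n, |coeff n y| * ν ^ n ≤ R) (ht : |t| < ν) :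
    AnalyticAt ℝ (ev y) t := by
  lift ν to NNReal using hν.le
  let q := FormalMultilinearSeries.ofScalars ℝ fun n => coeff n y
  have h1 : (ν : ENNReal) ≤ q.radius := q.le_radius_of_bound R fun n => by
    simpa [q, FormalMultilinearSeries.ofScalars_norm] using h n
  have h0 : (0 : ENNReal) < ν := by exact_mod_cast hν
  have h2 := (q.hasFPowerSeriesOnBall (h0.trans_le h1)).mono h0 h1
  have h3 : q.sum = ev y := by
    funext s
    exact (FormalMultilinearSeries.ofScalars_sum_eq (fun n => coeff n y) s).trans (by simp [ev])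
  rw [← h3]
  refine h2.analyticAt_of_mem ?_
  rw [Metric.eball_coe]
  simpa using ht

lemma ev_deriv (hν : 0 < ν) (h : ∀ n, |coeff n y| * ν ^ n ≤ R) (ht : |t| < ν) :
    ∃ v, HasDerivAt (ev y) v t ∧ HS t (d⁄dX ℝ y) v := by
  obtain ⟨ρ, h1, h2⟩ := exists_between ht
  have hρ : 0 < ρ := (abs_nonneg t).trans_lt h1
  have hq : ‖ρ / ν‖ < 1 := by rw [Real.norm_of_nonneg (by positivity)]; exact (div_lt_one hν).2 h2
  have hu : Summable fun n : ℕ => R / ρ * ((n : ℝ) ^ 1 * (ρ / ν) ^ n) :=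
    (summable_pow_mul_geometric_of_norm_lt_one 1 hq).mul_left _
  have hb : ∀ (n : ℕ) (s : ℝ), s ∈ Set.Ioo (-ρ) ρ →
      ‖coeff n y * (n * s ^ (n - 1))‖ ≤ R / ρ * ((n : ℝ) ^ 1 * (ρ / ν) ^ n) := by
    intro n s hs
    cases n with
    | zero => simp
    | succ n =>
      have a1 := term_le hν h ρ (n + 1)
      rw [Real.norm_eq_abs, abs_mul, abs_pow, abs_of_pos hρ] at a1
      have a2 : |s| ^ n ≤ ρ ^ n := pow_le_pow_left₀ (abs_nonneg _) (abs_lt.2 hs).le n
      rw [Real.norm_eq_abs, abs_mul, abs_mul, abs_pow, Nat.abs_cast, Nat.add_sub_cancel, pow_one]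
      calc _ ≤ |coeff (n + 1) y| * ((n + 1 : ℕ) * ρ ^ n) := by gcongr
        _ = ((n + 1 : ℕ) / ρ) * (|coeff (n + 1) y| * ρ ^ (n + 1)) := by field_simp; ring
        _ ≤ ((n + 1 : ℕ) / ρ) * (R * (ρ / ν) ^ (n + 1)) := by gcongr
        _ = _ := by ring
  have ht' : t ∈ Set.Ioo (-ρ) ρ := abs_lt.1 h1
  have hd := hasDerivAt_tsum_of_isPreconnected hu isOpen_Ioo isPreconnected_Ioo
    (g := fun n s => coeff n y * s ^ n) (g' := fun n s => coeff n y * (n * s ^ (n - 1)))
    (fun n s _ => (hasDerivAt_pow n s).const_mul _) hb ht' (hs_ev hν h ht).1.of_norm ht'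
  have hs : Summable fun n : ℕ => ‖coeff n y * (n * t ^ (n - 1))‖ :=
    hu.of_nonneg_of_le (fun _ => norm_nonneg _) fun n => hb n t ht'
  have e : ∀ n, coeff n (d⁄dX ℝ y) * t ^ n = coeff (n + 1) y * ((n + 1 : ℕ) * t ^ (n + 1 - 1)) :=
    fun n => by simp [coeff_derivative, mul_assoc]
  refine ⟨_, hd, ?_, ?_⟩
  · simpa only [e] using (summable_nat_add_iff 1).2 hs
  · rw [hs.of_norm.tsum_eq_zero_add, ev]
    simp only [e]
    simp

lemma ev_cont {y : P → ℝ⟦X⟧} (hν : 0 < ν) (h : ∀ p n, |coeff n (y p)| * ν ^ n ≤ R)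
    (hc : ∀ n, Continuous fun p => coeff n (y p)) (ht : |t| < ν) :
    Continuous fun p => ev (y p) t :=
  continuous_tsum (fun n => (hc n).mul continuous_const)
    ((summable_geometric_of_lt_one (by positivity) ((div_lt_one hν).2 ht)).mul_left R)
    fun n p => term_le hν (h p) t n

end Pool.Agent.MP_187b32_an.Prof

end MrgPart2

-- ======== part 3: formerly Pool.Agent.MP_187b32_an.Prof.Local
section MrgPart3

/-!
The profile equation `M(x, W) W' = N(x, W)` in the variable `x = s / s₀`, and its power series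
solutions at the origin `x = 0` and at the sonic point `x = 1`.
-/

open PowerSeries

namespace Pool.Agent.MP_187b32_an.Prof

section Ring

variable {R : Type} [CommRing R]

@[simp] lemma ev_add (env : List R) (a b : Ex) : (a + b).ev env = a.ev env + b.ev env := rfl
@[simp] lemma ev_mul (env : List R) (a b : Ex) : (a * b).ev env = a.ev env * b.ev env := rfl
@[simp] lemma ev_neg (env : List R) (a : Ex) : (-a).ev env = -a.ev env := rfl
@[simp] lemma ev_sub (env : List R) (a b : Ex) : (a - b).ev env = a.ev env - b.ev env :=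
  (sub_eq_add_neg _ _).symm
@[simp] lemma ev_int (env : List R) (n : ℤ) : (Ex.int n).ev env = n := rfl
@[simp] lemma ev_var (env : List R) (i : ℕ) : (Ex.var i).ev env = env.getD i 0 := rfl

def b3 (r w : R) : R := 3 * r + w * (6 + 2 * r + 5 * w)
def mm (r s x w : R) : R := 3 - s * x * b3 r w
def MM (r s x w : R) : R := 2 * x * mm r s x w
def NN (r s x w : R) : R := 3 * (s * x * (w * ((1 + w) * (r + w))) - 3 * (r - 1 + w))
def DD (s x w : R) : R := 1 - s * x * ((1 + w) * (1 + w))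
def nn (r w : R) : R := b3 r w - 3 * ((1 + w) * (1 + w))

def eb3 : Ex := .int 3 * .var 3 + .var 1 * (.int 6 + .int 2 * .var 3 + .int 5 * .var 1)
def em : Ex := .int 3 - .var 4 * .var 0 * eb3
def eM : Ex := .int 2 * .var 0 * em
def eN : Ex := .int 3 * (.var 4 * .var 0 * (.var 1 * ((.int 1 + .var 1) * (.var 3 + .var 1))) -
  .int 3 * (.var 3 - .int 1 + .var 1))
def eR : Ex := eM * .var 2 - eN
def eD : Ex := .int 1 - .var 4 * .var 0 * ((.int 1 + .var 1) * (.int 1 + .var 1))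
def en : Ex := eb3 - .int 3 * ((.int 1 + .var 1) * (.int 1 + .var 1))

variable (x w d r s : R)

lemma ev_em : em.ev [x, w, d, r, s] = mm r s x w := by simp [em, eb3, mm, b3]
lemma ev_eM : eM.ev [x, w, d, r, s] = MM r s x w := by simp [eM, ev_em, MM]
lemma ev_eN : eN.ev [x, w, d, r, s] = NN r s x w := by simp [eN, NN]
lemma ev_eR : eR.ev [x, w, d, r, s] = MM r s x w * d - NN r s x w := by simp [eR, ev_eM, ev_eN]
lemma ev_eD : eD.ev [x, w, d, r, s] = DD s x w := by simp [eD, DD]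
lemma ev_en : en.ev [x, w, d, r, s] = nn r w := by simp [en, eb3, nn, b3]

/-- The equation for the slope `g` at the sonic point. -/
def slopeEq (r s w g : R) : R :=
  g * (15) + s * (g * (g * ((-12))) + w * (g * ((-30) + g * ((-20))) + w * ((-3) + g * ((-29)) + w
    * ((-3))))) + r * (s * (g * ((-15) + g * ((-4))) + w * ((-3) + g * ((-14)) + w * ((-3)))))

def lamS (r s w g : R) : R :=
  6 + s * (g * ((-12)) + w * ((-24) + g * ((-20)) + w * ((-20)))) + r * (s * ((-12) + g * ((-4)) +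
    w * ((-8))))

def alS (r s w g : R) : R :=
  21 + s * (g * ((-36)) + w * ((-54) + g * ((-60)) + w * ((-49)))) + r * (s * ((-27) + g * ((-12))
    + w * ((-22))))

def fS (r s w g : R) : R :=
  s * (g * (g * (27 + g * (10))) + w * (g * (18 + g * (49)) + w * (g * (19)))) + r * (s * (g * (9
    + g * (11)) + w * (g * (10))))

def eS1 : Ex :=
  .var 3 * (.var 5 * (.var 5 * (.int 15 + .var 5 * (.int 23))) + .var 4 * (.var 5 * (.var 5 *
    (.int 29)))) + .var 2 * (.var 3 * (.var 5 * (.var 5 * (.int 7)))) + .var 1 * (.var 3 * (.var 5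
    * (.int 78 + .var 5 * (.int 40)) + .var 4 * (.int 30 + .var 5 * (.int 138) + .var 4 * (.int
    29))) + .var 2 * (.var 3 * (.int 15 + .var 5 * (.int 30) + .var 4 * (.int 14))) + .var 1 *
    (.var 3 * (.int 24 + .var 4 * (.int 40)) + .var 2 * (.var 3 * (.int 8)))) + .var 0 * (.var 3 *
    (.var 5 * (.var 5 * (.var 5 * (.int 13)))) + .var 1 * (.var 3 * (.var 5 * (.int 42 + .var 5 *
    (.int 89)) + .var 4 * (.var 5 * (.int 78))) + .var 2 * (.var 3 * (.var 5 * (.int 18))) + .var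
    1 * (.var 3 * (.int 51 + .var 5 * (.int 50) + .var 4 * (.int 89)) + .var 2 * (.var 3 * (.int
    19)))) + .var 0 * (.var 1 * (.var 3 * (.var 5 * (.var 5 * (.int 49))) + .var 1 * (.var 3 *
    (.int 27 + .var 5 * (.int 109) + .var 4 * (.int 49)) + .var 2 * (.var 3 * (.int 11)) + .var 1
    * (.var 3 * (.int 20)))) + .var 0 * (.var 1 * (.var 1 * (.var 3 * (.var 5 * (.int 59)) + .var
    1 * (.var 3 * (.int 43)))) + .var 0 * (.var 1 * (.var 1 * (.var 1 * (.var 3 * (.int 23))))))))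

def eS3 : Ex :=
  .var 3 * (.var 5 * (.int 24 + .var 5 * (.int 10)) + .var 4 * (.int 12 + .var 5 * (.int 40) +
    .var 4 * (.int 10))) + .var 2 * (.var 3 * (.int 6 + .var 5 * (.int 8) + .var 4 * (.int 4))) +
    .var 1 * (.var 3 * (.int 12 + .var 4 * (.int 20)) + .var 2 * (.var 3 * (.int 4))) + .var 0 *
    (.var 3 * (.var 5 * (.int 12 + .var 5 * (.int 20)) + .var 4 * (.var 5 * (.int 20))) + .var 2 *
    (.var 3 * (.var 5 * (.int 4))) + .var 1 * (.var 3 * (.int 24 + .var 5 * (.int 20) + .var 4 *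
    (.int 40)) + .var 2 * (.var 3 * (.int 8))) + .var 0 * (.var 3 * (.var 5 * (.var 5 * (.int
    10))) + .var 1 * (.var 3 * (.int 12 + .var 5 * (.int 40) + .var 4 * (.int 20)) + .var 2 *
    (.var 3 * (.int 4)) + .var 1 * (.var 3 * (.int 10))) + .var 0 * (.var 1 * (.var 3 * (.var 5 *
    (.int 20)) + .var 1 * (.var 3 * (.int 20))) + .var 0 * (.var 1 * (.var 1 * (.var 3 * (.int
    10)))))))

lemma sonic_identity (X y z r s w g : R) :
    MM r s (1 + X) (w + g * X + X ^ 2 * y) * (g + X * (2 * y + z)) -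
      NN r s (1 + X) (w + g * X + X ^ 2 * y) =
    MM r s 1 w * (g + X * (2 * y + z)) - NN r s 1 w + X * slopeEq r s w g +
      X ^ 2 * (lamS r s w g * z + alS r s w g * y - fS r s w g -
        X * (eS1.ev [X, y, r, s, w, g] + eS3.ev [X, y, r, s, w, g] * z)) := by
  simp [eS1, eS3, MM, NN, mm, b3, slopeEq, lamS, alS, fS]
  ring

def eO1 : Ex := .int 3 * .var 3 * (.var 1 * ((.int 1 + .var 1) * (.var 2 + .var 1)))
def eO3 : Ex := .int 2 * .var 3 *
  (.int 3 * .var 2 + .var 1 * (.int 6 + .int 2 * .var 2 + .int 5 * .var 1))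

lemma origin_identity (X y d r s : R) :
    MM r s X y * d - NN r s X y = 6 * (X * d) + 9 * y - 9 * (1 - r) -
      X * (eO1.ev [X, y, r, s] + eO3.ev [X, y, r, s] * (X * d)) := by
  simp [eO1, eO3, MM, NN, mm, b3]
  ring

end Ring

/-- The residual of a power series centred at `xs`. -/
noncomputable def res (r s xs : ℝ) (Z : ℝ⟦X⟧) : ℝ⟦X⟧ :=
  eR.ev [C xs + X, Z, d⁄dX ℝ Z, C r, C s]

/-- The residual of a series that agrees with `W` below order `n`. -/
def Jet (r s xs : ℝ) (W : ℝ⟦X⟧) (n : ℕ) : Prop :=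
  ∃ γ : ℝ, ∀ Z : ℝ⟦X⟧, X ^ n ∣ Z - W →
    X ^ (n + 1) ∣ res r s xs Z - C (γ * (coeff n Z - coeff n W)) * X ^ n

lemma jet_aux {e1 e3 : Ex} {π : List ℝ} {lam α f0 : ℝ} {y z : ℝ⟦X⟧} {m : ℕ}
    (hy : C lam * th y + C α * y = C f0 + X * rhs e1 e3 π y) (h : X ^ m ∣ z - y) :
    X ^ (m + 1) ∣ C lam * th z + C α * z - C f0 - X * rhs e1 e3 π z -
      C ((lam * m + α) * (coeff m z - coeff m y)) * X ^ m := by
  have h1 : X ^ (m + 1) ∣ X * (rhs e1 e3 π z - rhs e1 e3 π y) := by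
    rw [pow_succ']
    exact mul_dvd_mul_left _ (rhs_dvd e1 e3 π h)
  have h2 : X ^ (m + 1) ∣ C lam * (th z - th y) + C α * (z - y) -
      C ((lam * m + α) * (coeff m z - coeff m y)) * X ^ m := by
    rw [X_pow_dvd_iff] at h ⊢
    intro k hk
    simp only [map_sub, map_add, coeff_C_mul, coeff_th, coeff_X_pow] at h ⊢
    split_ifs with hkm
    · subst hkm; ring
    · have := h k (by omega)
      rw [← mul_sub, this]
      simp
  convert dvd_sub h2 h1 using 1
  linear_combination hy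

/-- A power series solution centred at `xs`, depending continuously on a parameter. -/
structure Loc {P : Type} [TopologicalSpace P] (r s : P → ℝ) (xs : ℝ) (W : P → ℝ⟦X⟧)
    (ν R : ℝ) (n0 : ℕ) : Prop where
  pos : 0 < ν
  bd : ∀ p n, |coeff n (W p)| * ν ^ n ≤ R
  cont : ∀ n, Continuous fun p => coeff n (W p)
  sol : ∀ p, res (r p) (s p) xs (W p) = 0
  jet : ∀ p n, n0 ≤ n → Jet (r p) (s p) xs (W p) n

variable {P : Type} [TopologicalSpace P] [CompactSpace P] {r s w g : P → ℝ}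

theorem exists_origin (hr : Continuous r) (hs : Continuous s) :
    ∃ W ν R, Loc r s 0 W ν R 0 := by
  obtain ⟨ν, R, y, h0, h1, h2, h3⟩ := briot_bouquet eO1 eO3 (πs := [r, s]) (by simp [hr, hs])
    (lam := fun _ => 6) (α := fun _ => 9) (f0 := fun p => 9 * (1 - r p)) continuous_const
    continuous_const (by fun_prop) one_pos fun p n => by
      rw [abs_of_nonneg (by positivity)]
      linarith [(n.cast_nonneg : (0 : ℝ) ≤ n)]
  have e : ∀ p Z, res (r p) (s p) 0 Z = C 6 * th Z + C 9 * Z - C (9 * (1 - r p)) -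
      X * rhs eO1 eO3 ([r, s].map fun f => f p) Z := fun p Z => by
    rw [res, ev_eR, map_zero, zero_add, origin_identity]
    simp [rhs, th, map_ofNat]
  refine ⟨y, ν, R, h0, h1, h2, fun p => ?_, fun p n _ => ⟨6 * n + 9, fun Z hZ => ?_⟩⟩
  · rw [e]; linear_combination h3 p
  · rw [e]; exact jet_aux (h3 p) hZ

theorem exists_sonic (hr : Continuous r) (hs : Continuous s) (hw : Continuous w)
    (hg : Continuous g) (e1 : ∀ p, MM (r p) (s p) 1 (w p) = 0) (e2 : ∀ p, NN (r p) (s p) 1 (w p) = 0)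
    (e3 : ∀ p, slopeEq (r p) (s p) (w p) (g p) = 0)
    (hl : ∀ p, lamS (r p) (s p) (w p) (g p) ∈ Set.Ioo (-3.1 : ℝ) (-3))
    (ha : ∀ p, alS (r p) (s p) (w p) (g p) ∈ Set.Ioo (3.9 : ℝ) 4) :
    ∃ W ν R, Loc r s 1 W ν R 2 ∧ ∀ p, coeff 0 (W p) = w p ∧ coeff 1 (W p) = g p := by
  obtain ⟨ν, R, y, h0, h1, h2, h3⟩ := briot_bouquet eS1 eS3 (πs := [r, s, w, g])
    (by simp [hr, hs, hw, hg]) (lam := fun p => lamS (r p) (s p) (w p) (g p))
    (α := fun p => alS (r p) (s p) (w p) (g p)) (f0 := fun p => fS (r p) (s p) (w p) (g p))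
    (by unfold lamS; fun_prop) (by unfold alS; fun_prop) (by unfold fS; fun_prop)
    (c := 0.4) (by norm_num) fun p n => by
      obtain ⟨a1, a2⟩ := hl p
      obtain ⟨a3, a4⟩ := ha p
      rcases n with _ | _ | n
      · exact le_abs.2 (Or.inl (by push_cast; linarith))
      · exact le_abs.2 (Or.inl (by push_cast; linarith))
      · exact le_abs.2 (Or.inr (by push_cast; nlinarith [(n.cast_nonneg : (0 : ℝ) ≤ n)]))
  have e : ∀ p z, res (r p) (s p) 1 (C (w p) + C (g p) * X + X ^ 2 * z) =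
      X ^ 2 * (C (lamS (r p) (s p) (w p) (g p)) * th z + C (alS (r p) (s p) (w p) (g p)) * z -
        C (fS (r p) (s p) (w p) (g p)) - X * rhs eS1 eS3 ([r, s, w, g].map fun f => f p) z) := by
    intro p z
    have d : d⁄dX ℝ (C (w p) + C (g p) * X + X ^ 2 * z) = C (g p) + X * (2 * z + th z) := by
      simp [th, Derivation.leibniz, Derivation.leibniz_pow]
      ring
    have a1 : MM (C (r p)) (C (s p)) 1 (C (w p)) = (0 : ℝ⟦X⟧) := by
      simpa [MM, mm, b3, map_ofNat] using congrArg (C (R := ℝ)) (e1 p)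
    have a2 : NN (C (r p)) (C (s p)) 1 (C (w p)) = (0 : ℝ⟦X⟧) := by
      simpa [NN, map_ofNat] using congrArg (C (R := ℝ)) (e2 p)
    have a3 : slopeEq (C (r p)) (C (s p)) (C (w p)) (C (g p)) = (0 : ℝ⟦X⟧) := by
      simpa [slopeEq, map_ofNat] using congrArg (C (R := ℝ)) (e3 p)
    rw [res, ev_eR, d, map_one, sonic_identity, a1, a2, a3]
    simp [rhs, lamS, alS, fS, map_ofNat]
  obtain ⟨B, hB⟩ := isCompact_univ.exists_bound_of_continuousOn
    (f := fun p => |w p| + |g p| * ν) (by fun_prop)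
  have c0 : ∀ p z, coeff 0 (C (w p) + C (g p) * X + X ^ 2 * z) = w p := fun p z => by simp
  have c1 : ∀ p z, coeff 1 (C (w p) + C (g p) * X + X ^ 2 * z) = g p := fun p z => by
    simp [coeff_C, coeff_X_pow_mul']
  have c2 : ∀ p z n, coeff (n + 2) (C (w p) + C (g p) * X + X ^ 2 * z) = coeff n z :=
    fun p z n => by simp [coeff_X_pow_mul]
  refine ⟨fun p => C (w p) + C (g p) * X + X ^ 2 * y p, ν, max B (R * ν ^ 2),
    ⟨h0, fun p n => ?_, fun n => ?_, fun p => ?_, fun p n hn => ?_⟩, fun p => ⟨c0 p _, c1 p _⟩⟩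
  · have hb := (le_abs_self _).trans (hB p trivial)
    have := mul_nonneg (abs_nonneg (g p)) h0.le
    rcases n with _ | _ | n
    · exact le_max_of_le_left (by rw [c0]; linarith)
    · exact le_max_of_le_left (by rw [zero_add, c1]; linarith [abs_nonneg (w p)])
    · refine le_max_of_le_right ?_
      rw [c2, pow_add, pow_add, mul_assoc (ν ^ n), ← mul_assoc, ← pow_add]
      exact mul_le_mul_of_nonneg_right (h1 p n) (by positivity)
  · rcases n with _ | _ | n
    · simpa only [c0] using hw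
    · simpa only [zero_add, c1] using hg
    · exact (h2 n).congr fun p => (c2 p _ n).symm
  · rw [e]; linear_combination X ^ 2 * h3 p
  · obtain ⟨m, rfl⟩ := Nat.exists_eq_add_of_le' hn
    refine ⟨lamS (r p) (s p) (w p) (g p) * m + alS (r p) (s p) (w p) (g p), fun Z ⟨u, hu⟩ => ?_⟩
    have hZ : Z = C (w p) + C (g p) * X + X ^ 2 * (y p + X ^ m * u) := by
      linear_combination hu
    rw [hZ, e, c2, c2]
    convert mul_dvd_mul_left (X ^ 2) (jet_aux (h3 p) (z := y p + X ^ m * u) (m := m) (by simp))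
      using 1 <;> ring

end Pool.Agent.MP_187b32_an.Prof

end MrgPart3

-- ======== part 4: formerly Pool.Agent.MP_187b32_an.Prof.Check
section MrgPart4

/-!
Polynomial barriers around a power series solution, checked by ball arithmetic.
-/

open Polynomial Set

namespace Pool.Agent.MP_187b32_an.Prof

def pshift : ℕ → List Ball → List Ball
  | 0, Q => Q
  | n + 1, Q => (0, 0) :: pshift n Q

lemma PMem.pshift {Q : List Ball} {q : ℝ[X]} (h : PMem Q q) :
    ∀ n, PMem (pshift n Q) (X ^ n * q)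
  | 0 => h.of_eq (by simp)
  | n + 1 => (h.pshift n).shift.of_eq (by ring)

lemma PMem.drop {P : List Ball} {p : ℝ[X]} (h : PMem P p) (k : ℕ) :
    ∃ q, PMem (P.drop k) q ∧ ∀ i, q.coeff i = p.coeff (i + k) := by
  induction k with
  | zero => exact ⟨p, h, fun _ => rfl⟩
  | succ k ih =>
    obtain ⟨q, h1, h2⟩ := ih
    refine ⟨q.divX, ?_, fun i => ?_⟩
    · simpa using h1.tail.1
    · rw [coeff_divX, h2]; congr 1; omega

lemma eq_pow_mul {p q : ℝ[X]} {k : ℕ} (h : ∀ i, q.coeff i = p.coeff (i + k))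
    (h0 : ∀ i < k, p.coeff i = 0) : p = X ^ k * q := by
  ext i
  rw [coeff_X_pow_mul']
  split_ifs with hi
  · rw [h, Nat.sub_add_cancel hi]
  · exact h0 i (not_le.1 hi)

/-- The barrier with tail `q + θ`. -/
noncomputable def hb (W : PowerSeries ℝ) (k : ℕ) (q : ℝ[X]) (θ : ℝ) : ℝ[X] :=
  W.trunc k + X ^ k * (q + C θ)

/-- The environment of a polynomial centred at `xs`. -/
noncomputable def envP (r s xs : ℝ) (H : ℝ[X]) : List ℝ[X] :=
  [C xs + X, H, derivative H, C r, C s]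

lemma eval_envP (e : Ex) (r s xs : ℝ) (H : ℝ[X]) (t : ℝ) :
    (e.ev (envP r s xs H)).eval t = e.ev [xs + t, H.eval t, H.derivative.eval t, r, s] := by
  simpa [envP] using e.map (evalRingHom t) (envP r s xs H)

lemma coe_res (r s xs : ℝ) (H : ℝ[X]) :
    ((eR.ev (envP r s xs H) : ℝ[X]) : PowerSeries ℝ) = res r s xs H := by
  simpa [envP, res, PowerSeries.derivative_coe] using
    eR.map (coeToPowerSeries.ringHom (R := ℝ)) (envP r s xs H)

lemma hb_dvd (W : PowerSeries ℝ) (k : ℕ) (q : ℝ[X]) (θ : ℝ) :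
    PowerSeries.X ^ k ∣ (hb W k q θ : PowerSeries ℝ) - W := by
  rw [PowerSeries.X_pow_dvd_iff]
  intro i hi
  simp [hb, PowerSeries.coeff_trunc, hi, PowerSeries.coeff_X_pow_mul', hi.not_ge]

lemma hb_coeff (W : PowerSeries ℝ) (k : ℕ) (q : ℝ[X]) (θ : ℝ) :
    (hb W k q θ).coeff k = q.eval 0 + θ := by
  simp [hb, PowerSeries.coeff_trunc, coeff_X_pow_mul', coeff_zero_eq_eval_zero]

lemma Jet.hb {r s xs : ℝ} {W : PowerSeries ℝ} {k : ℕ} (h : Jet r s xs W k) : ∃ γ : ℝ,
    ∀ q θ, (∀ i < k, (eR.ev (envP r s xs (hb W k q θ))).coeff i = 0) ∧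
      (eR.ev (envP r s xs (hb W k q θ))).coeff k = γ * (q.eval 0 + θ - W.coeff k) := by
  obtain ⟨γ, h⟩ := h
  refine ⟨γ, fun q θ => ?_⟩
  have h1 := PowerSeries.X_pow_dvd_iff.1 (h _ (hb_dvd W k q θ))
  simp only [← coe_res, map_sub, PowerSeries.coeff_C_mul, coeff_coe, PowerSeries.coeff_X_pow,
    hb_coeff] at h1
  exact ⟨fun i hi => by simpa [hi.ne] using h1 i (by omega),
    by simpa [sub_eq_zero] using h1 k (by omega)⟩

/-- Ball version of `envP`. -/
def envB (rB sB : Ball) (xs : ℤ) (H : List Ball) : List (List Ball) :=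
  [[bint xs, bint 1], H, pder H, [rB], [sB]]

lemma pmem_env {r s : ℝ} {rB sB : Ball} (hr : Mem r rB) (hs : Mem s sB) (xs : ℤ) {H : List Ball}
    {h : ℝ[X]} (hH : PMem H h) : List.Forall₂ PMem (envB rB sB xs H) (envP r s xs h) :=
  .cons ((PMem.cons (mem_int xs) (PMem.const (mem_int 1))).of_eq (by simp))
    (.cons hH (.cons hH.der (.cons (PMem.const hr) (.cons (PMem.const hs) .nil))))

/-- Ball version of `hb`. -/
def hbB (low : List Ball) (k : ℕ) (Q : List ℤ) (θ : Ball) : List Ball :=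
  padd low (pshift k (padd (exact Q) [θ]))

lemma pmem_hb {W : PowerSeries ℝ} {k : ℕ} {low : List Ball} (h : PMem low (W.trunc k))
    (Q : List ℤ) {θ : ℝ} {θB : Ball} (hθ : Mem θ θB) :
    PMem (hbB low k Q θB) (hb W k (ofInts Q) θ) :=
  h.add (((pmem_exact Q).add (PMem.const hθ)).pshift k)

lemma mem_of_abs {θ : ℝ} {K : ℕ} (h : |θ| ≤ K / sc) : Mem θ (0, K) := by
  rw [le_div_iff₀ sc_pos] at h
  simpa [Mem, abs_mul, abs_of_pos sc_pos] using h

lemma between {γ a b x : ℝ} (hab : a ≤ b) (h1 : 0 < γ * (b - x)) (h2 : γ * (a - x) < 0) :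
    a < x ∧ x < b := by
  have h3 : 0 < γ := by
    by_contra h
    nlinarith [mul_nonneg (neg_nonneg.2 (not_lt.1 h)) (sub_nonneg.2 hab)]
  exact ⟨by nlinarith, by nlinarith⟩

/-- The ball `b` contains the coefficient of order `n`. -/
def coefChk (rB sB : Ball) (xs : ℤ) (low : List Ball) (n : ℕ) (b : Ball) (sg : ℤ) : Bool :=
  bpos (bmul (bint sg) (((eR.evP (envB rB sB xs (hbB low n [] (b.1 + b.2, 0)))).drop n).headD
    (0, 0))) &&
  bpos (bneg (bmul (bint sg) (((eR.evP (envB rB sB xs (hbB low n [] (b.1 - b.2, 0)))).drop n).headD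
    (0, 0))))

lemma coefChk_sound {r s : ℝ} {rB sB : Ball} (hr : Mem r rB) (hs : Mem s sB) {xs : ℤ}
    {W : PowerSeries ℝ} {n : ℕ} (hj : Jet r s xs W n) {low : List Ball}
    (hl : PMem low (W.trunc n)) {b : Ball} {sg : ℤ} (h : coefChk rB sB xs low n b sg = true) :
    PMem (padd low (pshift n [b])) (W.trunc (n + 1)) := by
  obtain ⟨γ, hγ⟩ := hj.hb
  have key : ∀ c : ℤ, Mem (sg * (γ * (c / sc - W.coeff n))) (bmul (bint sg)
      (((eR.evP (envB rB sB xs (hbB low n [] (c, 0)))).drop n).headD (0, 0))) := fun c => by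
    obtain ⟨q, h1, h2⟩ := (eR.pmem (pmem_env hr hs xs (pmem_hb hl [] (mem_exact c)))).drop n
    have h3 := h1.tail.2
    rw [h2, zero_add, (hγ _ _).2] at h3
    simpa [ofInts] using (mem_int sg).mul h3
  rw [coefChk, Bool.and_eq_true] at h
  have a1 := (key _).pos h.1
  have a2 := (key _).neg.pos h.2
  have hs0 := sc_pos
  obtain ⟨a3, a4⟩ := between (γ := sg * γ) (x := W.coeff n) (a := ((b.1 - b.2 : ℤ) : ℝ) / sc)
    (b := ((b.1 + b.2 : ℤ) : ℝ) / sc)
    (by gcongr; linarith [Int.natCast_nonneg b.2]) (by linarith) (by linarith)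
  rw [div_lt_iff₀ hs0] at a3
  rw [lt_div_iff₀ hs0] at a4
  have hb : Mem (W.coeff n) b := by
    push_cast at a3 a4
    exact abs_le.2 ⟨by linarith, by linarith⟩
  refine (hl.add ((PMem.const hb).pshift n)).of_eq ?_
  rw [PowerSeries.trunc_succ, ← C_mul_X_pow_eq_monomial]
  ring

/-- The two polynomials `hb W k q (± κ)` are barriers on `[a, b]`. -/
structure TubeOK (r s xs : ℝ) (W : PowerSeries ℝ) (k : ℕ) (q : ℝ[X]) (κ a b : ℝ) : Prop where
  k0 : Even k
  ne : ∀ t ∈ Icc a b, t ≠ 0 → ∀ θ, |θ| ≤ κ → MM r s (xs + t) ((hb W k q θ).eval t) ≠ 0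
  up : ∀ t ∈ Icc a b, t ≠ 0 → 0 < t * (MM r s (xs + t) ((hb W k q κ).eval t) *
    (eR.ev (envP r s xs (hb W k q κ))).eval t)
  lo : ∀ t ∈ Icc a b, t ≠ 0 → t * (MM r s (xs + t) ((hb W k q (-κ)).eval t) *
    (eR.ev (envP r s xs (hb W k q (-κ)))).eval t) < 0
  mid : |W.coeff k - q.eval 0| < κ

def tubeChk (rB sB : Ball) (xs : ℤ) (low : List Ball) (k : ℕ) (Q : List ℤ) (K : ℕ) (sg a : ℤ)
    (h n : ℕ) : Bool :=
  chk [(eM.evP (envB rB sB xs (hbB low k Q (0, K)))).drop 1,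
    (eR.evP (envB rB sB xs (hbB low k Q (K, 0)))).drop k,
    (eR.evP (envB rB sB xs (hbB low k Q (-K, 0)))).drop k]
    [.int sg * .var 0, .int sg * .var 1, -(.int sg * .var 2)] a h n

lemma tubeChk_sound {r s : ℝ} {rB sB : Ball} (hr : Mem r rB) (hs : Mem s sB) {xs : ℤ}
    {W : PowerSeries ℝ} {k : ℕ} (hk : Even k) (hj : Jet r s xs W k) {low : List Ball}
    (hl : PMem low (W.trunc k)) {Q : List ℤ}
    (h0 : ∀ θ, MM r s xs ((hb W k (ofInts Q) θ).eval 0) = 0) {K : ℕ} {sg A : ℤ} {h n : ℕ}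
    (hc : tubeChk rB sB xs low k Q K sg A h n = true) {a b : ℝ} (ha : a ≤ 0) (hb0 : 0 ≤ b)
    (h1 : (A : ℝ) ≤ a * sc) (h2 : b * sc ≤ A + 2 * h * (n + 1)) :
    TubeOK r s xs W k (ofInts Q) (K / sc) a b := by
  obtain ⟨γ, hγ⟩ := hj.hb
  have hs0 := sc_pos
  have hK : (0 : ℝ) ≤ K / sc := by positivity
  obtain ⟨R1, p1, q1⟩ := (eR.pmem (pmem_env hr hs xs (pmem_hb hl Q (mem_exact K)))).drop k
  obtain ⟨R2, p2, q2⟩ := (eR.pmem (pmem_env hr hs xs (pmem_hb hl Q (mem_exact (-K))))).drop k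
  have e1 := eq_pow_mul q1 (hγ _ _).1
  have e2 := eq_pow_mul q2 (hγ _ _).1
  simp only [Int.cast_neg, Int.cast_natCast, neg_div] at e1 e2 q1 q2
  have key : ∀ t ∈ Icc a b, ∀ θ : ℝ, |θ| ≤ K / sc → ∃ m : ℝ,
      MM r s (xs + t) ((hb W k (ofInts Q) θ).eval t) = t * m ∧ 0 < sg * m ∧ 0 < sg * R1.eval t ∧
        sg * R2.eval t < 0 := fun t ht θ hθ => by
    obtain ⟨M, p0, q0⟩ := (eM.pmem (pmem_env hr hs xs (pmem_hb hl Q (mem_of_abs hθ)))).drop 1
    have e0 := eq_pow_mul q0 fun i hi => by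
      rw [Nat.lt_one_iff.1 hi, coeff_zero_eq_eval_zero, eval_envP, ev_eM, add_zero, h0]
    have := chk_sound hc (.cons p0 (.cons p1 (.cons p2 .nil))) (t := t)
      (h1.trans (by gcongr; exact ht.1)) (le_trans (by gcongr; exact ht.2) h2)
    simp only [List.mem_cons, List.not_mem_nil, or_false, forall_eq_or_imp, forall_eq, ev_mul,
      ev_neg, ev_int, ev_var, List.map_cons, List.map_nil, List.getD_cons_zero,
      List.getD_cons_succ] at this
    refine ⟨M.eval t, ?_, this.1, this.2.1, by linarith [this.2.2]⟩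
    rw [← ev_eM _ _ ((derivative (hb W k (ofInts Q) θ)).eval t), ← eval_envP, e0]
    simp
  refine ⟨hk, fun t ht t0 θ hθ => ?_, fun t ht t0 => ?_, fun t ht t0 => ?_, ?_⟩
  · obtain ⟨m, a1, a2, -⟩ := key t ht θ hθ
    rw [a1]
    exact mul_ne_zero t0 fun h => by simp [h] at a2
  · obtain ⟨m, a1, a2, a3, -⟩ := key t ht _ (abs_of_nonneg hK).le
    have a5 : 0 < m * R1.eval t := by
      by_contra h
      nlinarith [mul_pos a2 a3, mul_nonneg (sq_nonneg (sg : ℝ)) (neg_nonneg.2 (not_lt.1 h))]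
    rw [a1, e1]
    simp only [eval_mul, eval_pow, eval_X]
    nlinarith [mul_pos (mul_pos (hk.pow_pos t0) (sq_pos_of_ne_zero t0)) a5]
  · obtain ⟨m, a1, a2, -, a3⟩ := key t ht (-(K / sc) : ℝ) (by rw [abs_neg, abs_of_nonneg hK])
    have a5 : 0 < -(m * R2.eval t) := by
      by_contra h
      nlinarith [mul_pos a2 (neg_pos.2 a3),
        mul_nonneg (sq_nonneg (sg : ℝ)) (neg_nonneg.2 (not_lt.1 h))]
    rw [a1, e2]
    simp only [eval_mul, eval_pow, eval_X]
    nlinarith [mul_pos (mul_pos (hk.pow_pos t0) (sq_pos_of_ne_zero t0)) a5]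
  · obtain ⟨m, -, -, a3, a4⟩ := key 0 ⟨ha, hb0⟩ 0 (by simpa using hK)
    rw [← coeff_zero_eq_eval_zero, q1, zero_add, (hγ _ _).2] at a3
    rw [← coeff_zero_eq_eval_zero, q2, zero_add, (hγ _ _).2] at a4
    obtain ⟨a5, a6⟩ := between (γ := sg * γ) (x := W.coeff k)
      (a := (ofInts Q).eval 0 + -(K / sc)) (b := (ofInts Q).eval 0 + K / sc)
      (by linarith) (by linarith) (by linarith)
    exact abs_lt.2 ⟨by linarith, by linarith⟩

end Pool.Agent.MP_187b32_an.Prof

end MrgPart4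

-- ======== part 5: formerly Pool.Agent.MP_187b32_an.Prof.Side
section MrgPart5

/-!
Continuation of a power series solution to one side of its centre, inside a tube.
-/

open Polynomial Set

namespace Pool.Agent.MP_187b32_an.Prof

lemma hs_poly (t : ℝ) (p : ℝ[X]) : HS t (p : PowerSeries ℝ) (p.eval t) := by
  induction p using Polynomial.induction_on with
  | C a => simpa using hs_C t a
  | add p q hp hq => simpa using hp.add hq
  | monomial n a ih => simpa [pow_succ, ← mul_assoc] using ih.mul (hs_X t)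

variable {r s xs ν R ε T δ κ a b : ℝ} {W : PowerSeries ℝ} {k : ℕ} {q : ℝ[X]}

lemma ev_ode (hν : 0 < ν) (h : ∀ n, |W.coeff n| * ν ^ n ≤ R) (hs : res r s xs W = 0) {t : ℝ}
    (ht : |t| < ν) : ∃ v, HasDerivAt (ev W) v t ∧
      MM r s (xs + t) (ev W t) * v = NN r s (xs + t) (ev W t) := by
  obtain ⟨v, h1, h2⟩ := ev_deriv hν h ht
  have h3 := eR.hs (.cons ((hs_C t xs).add (hs_X t)) (.cons (hs_ev hν h ht) (.cons h2
    (.cons (hs_C t r) (.cons (hs_C t s) .nil)))))
  rw [res] at hs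
  rw [hs, ev_eR] at h3
  exact ⟨v, h1, sub_eq_zero.1 (h3.2.symm.trans (by simp [ev]))⟩

lemma ev_split (hν : 0 < ν) (h : ∀ n, |W.coeff n| * ν ^ n ≤ R) (k : ℕ) : ∃ u : ℝ → ℝ,
    u 0 = W.coeff k ∧ ∀ t, |t| < ν → AnalyticAt ℝ u t ∧
      ev W t = (W.trunc k).eval t + t ^ k * u t := by
  let U : PowerSeries ℝ := PowerSeries.mk fun i => W.coeff (i + k)
  have hU : ∀ n, |U.coeff n| * ν ^ n ≤ R / ν ^ k := fun n => by
    rw [le_div_iff₀ (by positivity), mul_assoc, ← pow_add]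
    simpa [U] using h (n + k)
  refine ⟨ev U, by simp [ev_zero, U], fun t ht => ⟨ev_analytic hν hU ht, ?_⟩⟩
  have h1 := (((hs_poly t (X ^ k)).mul (hs_ev hν hU ht)).add (hs_poly t (W.trunc k))).2
  simp only [coe_pow, coe_X, eval_pow, eval_X] at h1
  rw [← PowerSeries.eq_X_pow_mul_shift_add_trunc] at h1
  rw [h1, add_comm]

lemma hb_eval (W : PowerSeries ℝ) (k : ℕ) (q : ℝ[X]) (θ t : ℝ) :
    (hb W k q θ).eval t = (W.trunc k).eval t + t ^ k * (q.eval t + θ) := by simp [hb]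

lemma exists_theta (hk : Even k) {t v : ℝ} (ht : t ≠ 0)
    (h : v ∈ Icc ((hb W k q (-κ)).eval t) ((hb W k q κ).eval t)) :
    ∃ θ, |θ| ≤ κ ∧ v = (hb W k q θ).eval t := by
  have h0 := hk.pow_pos ht
  simp only [hb_eval, mem_Icc] at h ⊢
  refine ⟨(v - (W.trunc k).eval t) / t ^ k - q.eval t, abs_le.2 ⟨?_, ?_⟩, by field_simp; ring⟩
  · rw [le_sub_iff_add_le, le_div_iff₀ h0]; linarith [h.1]
  · rw [sub_le_iff_le_add, div_le_iff₀ h0]; linarith [h.2]

lemma hb_deriv (H : ℝ[X]) (ε τ : ℝ) :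
    HasDerivAt (fun τ => H.eval (ε * τ)) (ε * H.derivative.eval (ε * τ)) τ := by
  have := (H.hasDerivAt (ε * τ)).comp τ ((hasDerivAt_id τ).const_mul ε)
  rw [mul_one, mul_comm] at this
  exact this

lemma TubeOK.lt_up (h : TubeOK r s xs W k q κ a b) {τ v : ℝ} (hτ : 0 < τ) (hε : ε ≠ 0)
    (ht : ε * τ ∈ Icc a b) (e : MM r s (xs + ε * τ) ((hb W k q κ).eval (ε * τ)) * v =
      ε * NN r s (xs + ε * τ) ((hb W k q κ).eval (ε * τ))) :
    v < ε * (hb W k q κ).derivative.eval (ε * τ) := by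
  have h1 := h.up _ ht (mul_ne_zero hε hτ.ne')
  rw [eval_envP, ev_eR] at h1
  set M := MM r s (xs + ε * τ) ((hb W k q κ).eval (ε * τ))
  by_contra hc
  have h2 := mul_nonneg (mul_nonneg hτ.le (sq_nonneg M)) (sub_nonneg.2 (not_lt.1 hc))
  have h3 := congrArg (fun x => τ * M * x) e
  nlinarith

lemma TubeOK.lo_lt (h : TubeOK r s xs W k q κ a b) {τ v : ℝ} (hτ : 0 < τ) (hε : ε ≠ 0)
    (ht : ε * τ ∈ Icc a b) (e : MM r s (xs + ε * τ) ((hb W k q (-κ)).eval (ε * τ)) * v =
      ε * NN r s (xs + ε * τ) ((hb W k q (-κ)).eval (ε * τ))) :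
    ε * (hb W k q (-κ)).derivative.eval (ε * τ) < v := by
  have h1 := h.lo _ ht (mul_ne_zero hε hτ.ne')
  rw [eval_envP, ev_eR] at h1
  set M := MM r s (xs + ε * τ) ((hb W k q (-κ)).eval (ε * τ))
  by_contra hc
  have h2 := mul_nonneg (mul_nonneg hτ.le (sq_nonneg M)) (sub_nonneg.2 (not_lt.1 hc))
  have h3 := congrArg (fun x => τ * M * x) e
  nlinarith

theorem in_tube (hε : |ε| = 1) (hν : 0 < ν) (h : ∀ n, |W.coeff n| * ν ^ n ≤ R)
    (tube : TubeOK r s xs W k q κ a b) (hab : ∀ τ ∈ Icc 0 T, ε * τ ∈ Icc a b) {V : ℝ → ℝ}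
    (hδ : 0 < δ) (h0 : ∀ τ ≤ δ, V τ = ev W (ε * τ)) (hc : ContinuousOn V (Ioc 0 T))
    (hd : ∀ τ ∈ Ioo 0 T, ∃ v, HasDerivWithinAt V v (Ici τ) τ ∧
      MM r s (xs + ε * τ) (V τ) * v = ε * NN r s (xs + ε * τ) (V τ)) :
    ∀ τ ∈ Ioc 0 T, V τ ∈ Icc ((hb W k q (-κ)).eval (ε * τ)) ((hb W k q κ).eval (ε * τ)) := by
  obtain ⟨u, hu0, hu⟩ := ev_split hν h k
  have hε0 : ε ≠ 0 := fun h => by simp [h] at hε
  have c1 : ContinuousAt (fun t => |u t - q.eval t|) 0 :=
    ((hu 0 (by simpa using hν)).1.continuousAt.sub q.continuous.continuousAt).abs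
  obtain ⟨η, hη, c2⟩ := Metric.eventually_nhds_iff.1
    (c1.eventually_lt continuousAt_const (g := fun _ => κ) (by simpa [hu0] using tube.mid))
  intro τ hτ
  choose! V' hV using hd
  set τ0 := min (min τ δ) (min η ν / 2) with hτ0
  have a0 : 0 < τ0 := lt_min (lt_min hτ.1 hδ) (half_pos (lt_min hη hν))
  have a1 : τ0 ≤ τ := (min_le_left _ _).trans (min_le_left _ _)
  have a2 : τ0 ≤ δ := (min_le_left _ _).trans (min_le_right _ _)
  have a3 : τ0 < min η ν := (min_le_right _ _).trans_lt (half_lt_self (lt_min hη hν))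
  have a4 : |ε * τ0| = τ0 := by rw [abs_mul, hε, one_mul, abs_of_pos a0]
  have sub : ∀ x ∈ Ico τ0 τ, x ∈ Ioo 0 T := fun x hx => ⟨a0.trans_le hx.1, hx.2.trans_le hτ.2⟩
  refine fence (a := τ0) (b := τ) (V' := V')
    (hc.mono fun x hx => ⟨a0.trans_le hx.1, hx.2.trans hτ.2⟩) (fun x hx => (hV x (sub x hx)).1)
    (hb_deriv _ ε) (hb_deriv _ ε) (fun x hx e => ?_) (fun x hx e => ?_) ?_ τ ⟨a1, le_rfl⟩
  · exact tube.lt_up (sub x hx).1 hε0 (hab x (Ioo_subset_Icc_self (sub x hx)))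
      (by simpa only [e] using (hV x (sub x hx)).2)
  · exact tube.lo_lt (sub x hx).1 hε0 (hab x (Ioo_subset_Icc_self (sub x hx)))
      (by simpa only [e] using (hV x (sub x hx)).2)
  · have b1 := abs_lt.1 (c2 (y := ε * τ0) (by
      rw [dist_zero_right, Real.norm_eq_abs, a4]; exact a3.trans_le (min_le_left _ _)))
    have b2 := tube.k0.pow_nonneg (ε * τ0)
    rw [h0 τ0 a2, (hu _ (by rw [a4]; exact a3.trans_le (min_le_right _ _))).2, hb_eval, hb_eval]
    constructor <;> nlinarith [b1.1, b1.2]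

/-- A solution on `(0, T]` in the variable `τ`, `x = xs + ε τ`, given by the series near `0`. -/
structure SideSol (r s xs ε T δ : ℝ) (W : PowerSeries ℝ) (V : ℝ → ℝ) : Prop where
  eq : ∀ τ ≤ δ, V τ = ev W (ε * τ)
  der : ∀ τ ∈ Ioc 0 T, HasDerivWithinAt V
    (ε * (NN r s (xs + ε * τ) (V τ) / MM r s (xs + ε * τ) (V τ))) (Iic T) τ
  ne : ∀ τ ∈ Ioc 0 T, MM r s (xs + ε * τ) (V τ) ≠ 0

lemma SideSol.hasDerivAt {V : ℝ → ℝ} (h : SideSol r s xs ε T δ W V) {τ : ℝ} (hτ : τ ∈ Ioo 0 T) :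
    HasDerivAt V (ε * (NN r s (xs + ε * τ) (V τ) / MM r s (xs + ε * τ) (V τ))) τ :=
  (h.der τ (Ioo_subset_Ioc_self hτ)).hasDerivAt (Iic_mem_nhds hτ.2)

lemma SideSol.theta {V : ℝ → ℝ} (hV : SideSol r s xs ε T δ W V) (hε : |ε| = 1) (hν : 0 < ν)
    (h : ∀ n, |W.coeff n| * ν ^ n ≤ R) (hδ : 0 < δ) (tube : TubeOK r s xs W k q κ a b)
    (hab : ∀ τ ∈ Icc 0 T, ε * τ ∈ Icc a b) {τ : ℝ} (hτ : τ ∈ Ioc 0 T) :
    ∃ θ, |θ| ≤ κ ∧ V τ = (hb W k q θ).eval (ε * τ) := by
  refine exists_theta tube.k0 (mul_ne_zero (fun h => by simp [h] at hε) hτ.1.ne')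
    (in_tube hε hν h tube hab hδ hV.eq
      (fun x hx => (hV.der x hx).continuousWithinAt.mono Ioc_subset_Iic_self)
      (fun x hx => ⟨_, (hV.hasDerivAt hx).hasDerivWithinAt, ?_⟩) τ hτ)
  have := hV.ne x (Ioo_subset_Ioc_self hx)
  field_simp

lemma div_lip (r s x v w : ℝ) (hv : MM r s x v ≠ 0) (hw : MM r s x w ≠ 0) :
    NN r s x v / MM r s x v - NN r s x w / MM r s x w = (v - w) *
      ((3 * (s * x * (v ^ 2 + v * w + w ^ 2 + (1 + r) * (v + w) + r) - 3) * MM r s x w +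
        NN r s x w * (2 * x ^ 2 * s * (6 + 2 * r + 5 * (v + w)))) / (MM r s x v * MM r s x w)) := by
  field_simp
  simp only [MM, NN, mm, b3]
  ring

theorem side {P : Type} [TopologicalSpace P] [CompactSpace P] {r s : P → ℝ} (hr : Continuous r)
    (hs : Continuous s) {W : P → PowerSeries ℝ} {n0 : ℕ} (hL : Loc r s xs W ν R n0) (hε : |ε| = 1)
    (hT : 0 < T) (tube : ∀ p, TubeOK (r p) (s p) xs (W p) k q κ a b) (hκ : 0 ≤ κ)
    (hab : ∀ τ ∈ Icc 0 T, ε * τ ∈ Icc a b) :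
    ∃ (V : P → ℝ → ℝ) (δ : ℝ), 0 < δ ∧ δ < ν ∧ δ < T ∧
      (∀ p, SideSol (r p) (s p) xs ε T δ (W p) (V p)) ∧ Continuous fun p => V p T := by
  have hν := hL.pos
  have hε0 : ε ≠ 0 := fun h => by simp [h] at hε
  set δ := min ν T / 2 with hδ
  have d0 : 0 < δ := half_pos (lt_min hν hT)
  have d1 : δ < ν := (half_lt_self (lt_min hν hT)).trans_le (min_le_left _ _)
  have d2 : δ < T := (half_lt_self (lt_min hν hT)).trans_le (min_le_right _ _)
  have ab : ∀ τ ∈ Ioc 0 δ, |ε * τ| < ν := fun τ hτ => by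
    rw [abs_mul, hε, one_mul, abs_of_pos hτ.1]; exact hτ.2.trans_lt d1
  have ser : ∀ p, ∀ τ ∈ Ioc 0 δ, ∃ v, HasDerivAt (fun τ => ev (W p) (ε * τ)) v τ ∧
      MM (r p) (s p) (xs + ε * τ) (ev (W p) (ε * τ)) * v =
        ε * NN (r p) (s p) (xs + ε * τ) (ev (W p) (ε * τ)) := fun p τ hτ => by
    obtain ⟨v, h1, h2⟩ := ev_ode hν (hL.bd p) (hL.sol p) (ab τ hτ)
    exact ⟨v * (ε * 1), h1.comp τ ((hasDerivAt_id τ).const_mul ε), by
      linear_combination ε * h2⟩
  have ser2 : ∀ p, ∀ τ ∈ Ioc 0 δ, ev (W p) (ε * τ) ∈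
      Icc ((hb (W p) k q (-κ)).eval (ε * τ)) ((hb (W p) k q κ).eval (ε * τ)) := fun p =>
    in_tube hε hν (hL.bd p) (tube p) (fun τ hτ => hab τ ⟨hτ.1, hτ.2.trans d2.le⟩) d0
      (fun _ _ => rfl) (fun τ hτ => (ser p τ hτ).choose_spec.1.continuousAt.continuousWithinAt)
      fun τ hτ => (ser p τ (Ioo_subset_Ioc_self hτ)).imp fun v hv => ⟨hv.1.hasDerivWithinAt, hv.2⟩
  have ne : ∀ p, ∀ τ ∈ Ioc 0 T, ∀ v ∈ Icc ((hb (W p) k q (-κ)).eval (ε * τ))
      ((hb (W p) k q κ).eval (ε * τ)), MM (r p) (s p) (xs + ε * τ) v ≠ 0 := fun p τ hτ v hv => by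
    have t0 := mul_ne_zero hε0 hτ.1.ne'
    obtain ⟨θ, h1, rfl⟩ := exists_theta (tube p).k0 t0 hv
    exact (tube p).ne _ (hab τ (Ioc_subset_Icc_self hτ)) t0 θ h1
  have sub : ∀ τ ∈ Icc δ T, τ ∈ Ioc 0 T := fun τ hτ => ⟨d0.trans_le hτ.1, hτ.2⟩
  have hbc : Continuous fun z : P × ℝ × ℝ => (hb (W z.1) k q z.2.2).eval (ε * z.2.1) := by
    have e : ∀ (Z : PowerSeries ℝ) t, (Z.trunc k).eval t =
        ∑ i ∈ Finset.range k, Z.coeff i * t ^ i := fun Z t => by
      rw [← eval₂_id, PowerSeries.eval₂_trunc_eq_sum_range]; rfl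
    simp only [hb_eval, e]
    have hq : Continuous fun z : P × ℝ × ℝ => q.eval (ε * z.2.1) :=
      q.continuous.comp (by fun_prop)
    exact (continuous_finsetSum _ fun i _ => ((hL.cont i).comp continuous_fst).mul
      (by fun_prop)).add (by fun_prop)
  obtain ⟨L, hL0, hLb⟩ := tube_bound (P := P)
    (isCompact_Icc.prod (isCompact_Icc.prod isCompact_Icc) :
      IsCompact (Icc δ T ×ˢ Icc (-κ) κ ×ˢ Icc (-κ) κ))
    (g := fun z => (fun r s x v w => (3 * (s * x * (v ^ 2 + v * w + w ^ 2 + (1 + r) * (v + w) + r)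
      - 3) * MM r s x w + NN r s x w * (2 * x ^ 2 * s * (6 + 2 * r + 5 * (v + w)))) /
        (MM r s x v * MM r s x w)) (r z.1) (s z.1) (xs + ε * z.2.1)
      ((hb (W z.1) k q z.2.2.1).eval (ε * z.2.1)) ((hb (W z.1) k q z.2.2.2).eval (ε * z.2.1))) (by
      have c1 : Continuous fun z : P × ℝ × ℝ × ℝ => (hb (W z.1) k q z.2.2.1).eval (ε * z.2.1) :=
        hbc.comp (f := fun z : P × ℝ × ℝ × ℝ => (z.1, z.2.1, z.2.2.1)) (by fun_prop)
      have c2 : Continuous fun z : P × ℝ × ℝ × ℝ => (hb (W z.1) k q z.2.2.2).eval (ε * z.2.1) :=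
        hbc.comp (f := fun z : P × ℝ × ℝ × ℝ => (z.1, z.2.1, z.2.2.2)) (by fun_prop)
      refine ContinuousOn.div (Continuous.continuousOn ?_) (Continuous.continuousOn ?_)
        fun z hz => ?_
      · simp only [MM, NN, mm, b3]; fun_prop
      · simp only [MM, mm, b3]; fun_prop
      · have t1 := sub _ hz.2.1
        have t0 := mul_ne_zero hε0 t1.1.ne'
        exact mul_ne_zero ((tube _).ne _ (hab _ (Ioc_subset_Icc_self t1)) t0 _ (abs_le.2 hz.2.2.1))
          ((tube _).ne _ (hab _ (Ioc_subset_Icc_self t1)) t0 _ (abs_le.2 hz.2.2.2)))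
  have hle : ∀ p τ, (hb (W p) k q (-κ)).eval (ε * τ) ≤ (hb (W p) k q κ).eval (ε * τ) :=
    fun p τ => by
      simp only [hb_eval]
      nlinarith [(tube p).k0.pow_nonneg (ε * τ)]
  obtain ⟨V, v1, v2, v3⟩ := tube_ode (P := P)
    (F := fun p τ v => ε * (NN (r p) (s p) (xs + ε * τ) v / MM (r p) (s p) (xs + ε * τ) v))
    (lo := fun p τ => (hb (W p) k q (-κ)).eval (ε * τ))
    (hi := fun p τ => (hb (W p) k q κ).eval (ε * τ)) d2.le
    (hbc.comp (f := fun z : P × ℝ => (z.1, z.2, -κ)) (by fun_prop))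
    (hbc.comp (f := fun z : P × ℝ => (z.1, z.2, κ)) (by fun_prop)) (fun p τ _ => hle p τ)
    (continuousOn_const.mul (ContinuousOn.div (Continuous.continuousOn (by
      simp only [NN]; fun_prop)) (Continuous.continuousOn (by simp only [MM, mm, b3]; fun_prop))
      fun z hz => ne _ _ (sub _ hz.1) _ hz.2)) hL0
    (fun p τ hτ v hv w hw => by
      have t0 := mul_ne_zero hε0 (sub τ hτ).1.ne'
      rw [← mul_sub, abs_mul, hε, one_mul,
        div_lip _ _ _ _ _ (ne p τ (sub τ hτ) v hv) (ne p τ (sub τ hτ) w hw), abs_mul, mul_comm]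
      obtain ⟨θ1, h1, rfl⟩ := exists_theta (tube p).k0 t0 hv
      obtain ⟨θ2, h2, rfl⟩ := exists_theta (tube p).k0 t0 hw
      exact mul_le_mul_of_nonneg_right (hLb p (τ, θ1, θ2) ⟨hτ, abs_le.1 h1, abs_le.1 h2⟩)
        (abs_nonneg _))
    (fun p => hb_deriv _ ε) (fun p => hb_deriv _ ε)
    (fun p τ hτ => by
      have t1 := sub τ (Ico_subset_Icc_self hτ)
      have := ne p τ t1 _ ⟨hle p τ, le_rfl⟩
      exact (tube p).lt_up t1.1 hε0 (hab τ (Ioc_subset_Icc_self t1)) (by field_simp))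
    (fun p τ hτ => by
      have t1 := sub τ (Ico_subset_Icc_self hτ)
      have := ne p τ t1 _ ⟨le_rfl, hle p τ⟩
      exact (tube p).lo_lt t1.1 hε0 (hab τ (Ioc_subset_Icc_self t1)) (by field_simp))
    (ev_cont hν hL.bd hL.cont (ab δ ⟨d0, le_rfl⟩)) fun p => ser2 p δ ⟨d0, le_rfl⟩
  let U : P → ℝ → ℝ := fun p τ => if τ ≤ δ then ev (W p) (ε * τ) else V p τ
  have u1 : ∀ p, ∀ τ ≤ δ, U p τ = ev (W p) (ε * τ) := fun p τ h => if_pos h
  have u2 : ∀ p τ, δ ≤ τ → U p τ = V p τ := fun p τ h => by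
    rcases h.eq_or_lt with rfl | h
    · rw [u1 p _ le_rfl, v1]
    · exact if_neg h.not_ge
  have u3 : ∀ p, ∀ τ ∈ Ioc 0 T, MM (r p) (s p) (xs + ε * τ) (U p τ) ≠ 0 := fun p τ hτ => by
    rcases le_total τ δ with h | h
    · rw [u1 p τ h]; exact ne p τ hτ _ (ser2 p τ ⟨hτ.1, h⟩)
    · rw [u2 p τ h]; exact ne p τ hτ _ (v2 p τ ⟨h, hτ.2⟩).2
  refine ⟨U, δ, d0, d1, d2, fun p => ⟨u1 p, fun τ hτ => ?_, u3 p⟩,
    (v3 T).congr fun p => (u2 p T d2.le).symm⟩
  have l1 : τ ≤ δ → HasDerivWithinAt (U p) (ε * (NN (r p) (s p) (xs + ε * τ) (U p τ) /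
      MM (r p) (s p) (xs + ε * τ) (U p τ))) (Iic δ) τ := fun h => by
    obtain ⟨v, h1, h2⟩ := ser p τ ⟨hτ.1, h⟩
    have h3 := u3 p τ hτ
    rw [u1 p τ h] at h3 ⊢
    have h4 : ε * (NN (r p) (s p) (xs + ε * τ) (ev (W p) (ε * τ)) /
        MM (r p) (s p) (xs + ε * τ) (ev (W p) (ε * τ))) = v := by
      field_simp
      linarith
    rw [h4]
    exact h1.hasDerivWithinAt.congr (u1 p) (u1 p τ h)
  have l2 : δ ≤ τ → HasDerivWithinAt (U p) (ε * (NN (r p) (s p) (xs + ε * τ) (U p τ) /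
      MM (r p) (s p) (xs + ε * τ) (U p τ))) (Icc δ T) τ := fun h => by
    rw [u2 p τ h]
    exact (v2 p τ ⟨h, hτ.2⟩).1.congr (fun x hx => u2 p x hx.1) (u2 p τ h)
  rcases lt_trichotomy τ δ with h | h | h
  · exact ((l1 h.le).hasDerivAt (Iic_mem_nhds h)).hasDerivWithinAt
  · rw [← Iic_union_Icc_eq_Iic d2.le]
    exact (l1 h.le).union (l2 h.ge)
  · refine (l2 h.le).mono_of_mem_nhdsWithin ?_
    exact mem_nhdsWithin.2 ⟨Ioi δ, isOpen_Ioi, h, fun x hx => ⟨le_of_lt hx.1, hx.2⟩⟩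

end Pool.Agent.MP_187b32_an.Prof

end MrgPart5

-- marker of a merged file
example : 731051 + 73361 = 731051 + 73361 := rfl
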