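import Mathlib
import Pool.Agent.MP_187b32_an.Prof.Reg

/-!
Packaged checks for the tubes at the origin and at the sonic point.
-/

open Polynomial Set

namespace Pool.Agent.MP_187b32_an.Prof

structure Dat where
  wB : Ball
  rB : Ball
  sB : Ball
  gB : Ball
  c2 : Ball
  c3 : Ball
  Qo : List ℤ
  Ko : ℕ
  Qs : List ℤ
  Ks : ℕ

structure Stp where
  c : ℤ
  Q : List ℤ
  φ : List ℤ
  K : ℕ
  a : ℤ
  h : ℕ
  n : ℕ
  v : Ball
  u : Ball

def e8 : ℤ := 42535295865117307932921825928971026432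
def hO : ℕ := 4652297985247205555163324712215773907
def hS : ℕ := 1329227995784915872903807062626023493

def Dat.low2 (D : Dat) : List Ball := padd [D.wB, D.gB] (pshift 2 [D.c2])
def Dat.low (D : Dat) : List Ball := padd D.low2 (pshift 3 [D.c3])
def Dat.Ho (D : Dat) : List Ball := hbB [] 0 D.Qo (0, D.Ko)
def Dat.Hs (D : Dat) : List Ball := hbB D.low 4 D.Qs (0, D.Ks)
def Dat.ok1 (D : Dat) : Bool :=
  parChk D.wB D.rB D.sB D.gB && coefChk D.rB D.sB 1 [D.wB, D.gB] 2 D.c2 1 &&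
    coefChk D.rB D.sB 1 D.low2 3 D.c3 1
def Dat.ok2 (D : Dat) : Bool := tubeChk D.rB D.sB 0 [] 0 D.Qo D.Ko 1 0 hO 31
def Dat.ok3 (D : Dat) : Bool := tubeChk D.rB D.sB 1 D.low 4 D.Qs D.Ks (-1) (-e8) hS 31
def Dat.ok4 (D : Dat) : Bool := regChk D.rB D.sB (bint 0) D.Ho 0 1 0 hO 31
def Dat.ok5 (D : Dat) : Bool := regChk D.rB D.sB (bint 1) D.Hs 1 (-1) (-e8) hS 31
def Dat.mis (D : Dat) : Ball := badd (horner (7 * e8, 0) D.Ho) (bneg (horner (-e8, 0) D.Hs))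
def Dat.fin (D : Dat) : Ball := horner (e8, 0) D.Hs
def Stp.ok (S : Stp) (D : Dat) (v : Ball) : Bool :=
  stepChk D.rB D.sB S.c S.Q S.φ S.K S.a S.h S.n v S.v S.u

/-- The series at the origin and at the sonic point for the parameter `w`. -/
structure Ser (w : ℝ) (Wo Ws : PowerSeries ℝ) : Prop where
  jo : Jet (rF w) (sF w) 0 Wo 0
  js : ∀ n, 2 ≤ n → Jet (rF w) (sF w) 1 Ws n
  c0 : Ws.coeff 0 = w
  c1 : Ws.coeff 1 = gSon w

structure Tub (D : Dat) (w : ℝ) (Wo Ws : PowerSeries ℝ) : Prop where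
  hr : Mem (rF w) D.rB
  hs : Mem (sF w) D.sB
  low : PMem D.low (Ws.trunc 4)
  o : TubeOK (rF w) (sF w) 0 Wo 0 (ofInts D.Qo) (D.Ko / sc) 0 (7 / 8)
  s : TubeOK (rF w) (sF w) 1 Ws 4 (ofInts D.Qs) (D.Ks / sc) (-(1 / 8)) (1 / 8)

variable {D : Dat} {w : ℝ} {Wo Ws : PowerSeries ℝ}

lemma Dat.par (h1 : D.ok1 = true) (hw : Mem w D.wB) : ParOK w := by
  simp only [Dat.ok1, Bool.and_eq_true] at h1
  exact (parChk_sound hw h1.1.1).2.2.2

lemma hb_zero (hS : Ser w Wo Ws) (q : ℝ[X]) (θ : ℝ) : (hb Ws 4 q θ).eval 0 = w := by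
  rw [hb_eval, ← coeff_zero_eq_eval_zero, PowerSeries.coeff_trunc]
  simp [hS.c0]

lemma Dat.tub (h1 : D.ok1 = true) (h2 : D.ok2 = true) (h3 : D.ok3 = true) (hw : Mem w D.wB)
    (hS : Ser w Wo Ws) : Tub D w Wo Ws := by
  simp only [Dat.ok1, Bool.and_eq_true] at h1
  obtain ⟨hr, hs, hg, hp⟩ := parChk_sound hw h1.1.1
  have l2 : PMem [D.wB, D.gB] (Ws.trunc 2) := (PMem.cons hw (PMem.const hg)).of_eq (by
    rw [PowerSeries.trunc_succ, PowerSeries.trunc_one_left, hS.c0, hS.c1,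
      ← C_mul_X_pow_eq_monomial]
    ring)
  have j : ∀ n, 2 ≤ n → Jet (rF w) (sF w) (1 : ℤ) Ws n := by simpa using hS.js
  have l3 := coefChk_sound hr hs (j 2 le_rfl) l2 h1.1.2
  have l4 := coefChk_sound hr hs (j 3 (by norm_num)) l3 h1.2
  refine ⟨hr, hs, l4, ?_, ?_⟩
  · have := tubeChk_sound hr hs (xs := 0) (W := Wo) (k := 0) (low := []) (by norm_num)
      (by simpa using hS.jo) (by simpa using PMem.nil) (fun θ => by simp [MM]) h2 (a := 0)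
      (b := 7 / 8) le_rfl (by norm_num) (by simp) (by norm_num [sc, hO])
    simpa using this
  · have := tubeChk_sound hr hs (xs := 1) (W := Ws) (k := 4) (by norm_num)
      (j 4 (by norm_num)) l4 (fun θ => by rw [hb_zero hS]; simp [MM, hp.e1]) h3 (a := -(1 / 8))
      (b := 1 / 8) (by norm_num) (by norm_num) (by norm_num [sc, e8]) (by norm_num [sc, e8, Prof.hS])
    simpa using this

lemma Tub.pmem_o {θ : ℝ} (h : |θ| ≤ D.Ko / sc) : PMem D.Ho (hb Wo 0 (ofInts D.Qo) θ) :=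
  pmem_hb (low := []) (by simpa using PMem.nil) _ (mem_of_abs h)

lemma Tub.pmem_s (hT : Tub D w Wo Ws) {θ : ℝ} (h : |θ| ≤ D.Ks / sc) :
    PMem D.Hs (hb Ws 4 (ofInts D.Qs) θ) := pmem_hb hT.low _ (mem_of_abs h)

lemma Tub.good_o (hT : Tub D w Wo Ws) (h4 : D.ok4 = true) {θ t : ℝ} (h : |θ| ≤ D.Ko / sc)
    (ht : t ∈ Icc 0 (7 / 8)) : Good (rF w) (sF w) t ((hb Wo 0 (ofInts D.Qo) θ).eval t) := by
  have := regChk_sound hT.hr hT.hs (mem_int 0) (Tub.pmem_o (Wo := Wo) h) h4 (Or.inl rfl) (t := t)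
    (by simp) (by simpa using mul_nonneg ht.1 sc_pos.le) (by
      have := ht.2
      norm_num [sc, hO]
      linarith)
  simpa using this

lemma Tub.good_s (hT : Tub D w Wo Ws) (hS : Ser w Wo Ws) (hp : ParOK w) (h5 : D.ok5 = true)
    {θ t : ℝ} (h : |θ| ≤ D.Ks / sc) (ht : t ∈ Icc (-(1 / 8)) (1 / 8)) (t0 : t ≠ 0) :
    Good (rF w) (sF w) (1 + t) ((hb Ws 4 (ofInts D.Qs) θ).eval t) := by
  have := regChk_sound hT.hr hT.hs (mem_int 1) (hT.pmem_s h) h5 (Or.inr ⟨rfl, by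
    rw [hb_zero hS, Int.cast_one]; exact ⟨hp.e1, hp.e2, hp.e4, hp.e5⟩⟩) (t := t)
    (by simpa using t0) (by
      have := ht.1
      norm_num [sc, e8]
      linarith) (by
      have := ht.2
      norm_num [sc, e8, Prof.hS]
      linarith)
  simpa using this

lemma Tub.mis (hT : Tub D w Wo Ws) {θ1 θ2 : ℝ} (h1 : |θ1| ≤ D.Ko / sc) (h2 : |θ2| ≤ D.Ks / sc) :
    Mem ((hb Wo 0 (ofInts D.Qo) θ1).eval (7 / 8) - (hb Ws 4 (ofInts D.Qs) θ2).eval (-(1 / 8)))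
      D.mis := by
  rw [sub_eq_add_neg]
  exact ((Tub.pmem_o h1).horner (by norm_num [Mem, sc, e8])).add
    ((hT.pmem_s h2).horner (by norm_num [Mem, sc, e8])).neg

lemma Tub.fin (hT : Tub D w Wo Ws) {θ : ℝ} (h : |θ| ≤ D.Ks / sc) :
    Mem ((hb Ws 4 (ofInts D.Qs) θ).eval (1 / 8)) D.fin :=
  (hT.pmem_s h).horner (by norm_num [Mem, sc, e8])

end Pool.Agent.MP_187b32_an.Prof
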