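import Pool.Agent.MP_187b32_an.Prof.Data

/-!
Kernel evaluation of the checks.
-/

namespace Pool.Agent.MP_187b32_an.Prof

theorem d21 : d2.ok1 = true := by decide +kernel
theorem d22 : d2.ok2 = true := by decide +kernel

end Pool.Agent.MP_187b32_an.Prof
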