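import Pool.Agent.MP_187b32_an.Prof.Data

/-!
Kernel evaluation of the checks.
-/

namespace Pool.Agent.MP_187b32_an.Prof

theorem t1ok : t1.ok dA dA.fin = true := by decide +kernel
theorem t2ok : t2.ok dA t1.v = true := by decide +kernel
theorem t3ok : t3.ok dA t2.v = true := by decide +kernel
theorem t4ok : t4.ok dA t3.v = true := by decide +kernel

end Pool.Agent.MP_187b32_an.Prof
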