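import Mathlib
import Pool.Agent.MP_187b32_an.Prof.Join
import Pool.Agent.MP_187b32_an.Prof.K1
import Pool.Agent.MP_187b32_an.Prof.K2
import Pool.Agent.MP_187b32_an.Prof.K3
import Pool.Agent.MP_187b32_an.Prof.K4
import Pool.Agent.MP_187b32_an.Prof.K5
import Pool.Agent.MP_187b32_an.Prof.K6
import Pool.Agent.MP_187b32_an.Prof.K7

/-!
The inner part of the profile: shooting in the value of `W` at the sonic point.
-/

open Set

namespace Pool.Agent.MP_187b32_an.Prof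

/-- The right end point of a step. -/
noncomputable def Stp.e (S : Stp) : ℝ := (S.c + S.a + 2 * S.h * (S.n + 1)) / sc

lemma Stp.go (S : Stp) {r s x0 v0 : ℝ} {v : Ball} (hr : Mem r dA.rB) (hs : Mem s dA.sB)
    (h : S.ok dA v = true) (hx : x0 * sc = S.c + S.a) (hv : Mem v0 v) :
    ∃ V : ℝ → ℝ, V x0 = v0 ∧ Mem (V S.e) S.v ∧ Seg r s (Icc x0 S.e) V ∧
      ∀ x ∈ Icc x0 S.e, Mem (V x) S.u :=
  step hr hs h hx (div_mul_cancel₀ _ sc_pos.ne') hv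

lemma steps {r s v0 : ℝ} (hr : Mem r dA.rB) (hs : Mem s dA.sB) (hv : Mem v0 dA.fin) :
    ∃ V : ℝ → ℝ, v0 = V (9 / 8) ∧ Seg r s (Icc (9 / 8) t4.e) V ∧
      ∀ x ∈ Icc (5 / 2 : ℝ) (27 / 10), -17 / 100 ≤ V x ∧ V x ≤ -1 / 8 := by
  have o1 : 9 / 8 ≤ t1.e := by norm_num [Stp.e, t1, sc]
  have o2 : t1.e ≤ t2.e := by norm_num [Stp.e, t1, t2, sc]
  have o3 : t2.e ≤ t3.e := by norm_num [Stp.e, t2, t3, sc]
  have o4 : t3.e ≤ 5 / 2 := by norm_num [Stp.e, t3, sc]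
  have o5 : 27 / 10 ≤ t4.e := by norm_num [Stp.e, t4, sc]
  obtain ⟨V1, a1, b1, c1, -⟩ := t1.go (x0 := 9 / 8) hr hs t1ok (by norm_num [t1, sc]) hv
  obtain ⟨V2, a2, b2, c2, -⟩ := t2.go (x0 := t1.e) hr hs t2ok (by norm_num [Stp.e, t1, t2, sc]) b1
  obtain ⟨V3, a3, b3, c3, -⟩ := t3.go (x0 := t2.e) hr hs t3ok (by norm_num [Stp.e, t2, t3, sc]) b2
  obtain ⟨V4, a4, -, c4, d4⟩ := t4.go (x0 := t3.e) hr hs t4ok (by norm_num [Stp.e, t3, t4, sc]) b3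
  have o6 : t3.e ≤ t4.e := by linarith
  obtain ⟨U3, p3, q3, r3⟩ := c3.glue c4 (fun x hx => hx.2) (fun x hx => hx.1) ⟨o3, le_rfl⟩
    ⟨le_rfl, o6⟩ a4.symm
  rw [Icc_union_Icc_eq_Icc o3 o6] at p3
  obtain ⟨U2, p2, q2, r2⟩ := c2.glue p3 (fun x hx => hx.2) (fun x hx => hx.1) ⟨o2, le_rfl⟩
    ⟨le_rfl, by linarith⟩ (by rw [q3 _ o3, a3])
  rw [Icc_union_Icc_eq_Icc o2 (by linarith)] at p2
  obtain ⟨U1, p1, q1, r1⟩ := c1.glue p2 (fun x hx => hx.2) (fun x hx => hx.1) ⟨o1, le_rfl⟩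
    ⟨le_rfl, by linarith⟩ (by rw [q2 _ o2, a2])
  rw [Icc_union_Icc_eq_Icc o1 (by linarith)] at p1
  refine ⟨U1, by rw [q1 _ o1, a1], p1, fun x hx => ?_⟩
  have := abs_le.1 (d4 x ⟨by linarith [hx.1], by linarith [hx.2]⟩)
  rw [r1 x (by linarith [hx.1]), r2 x (by linarith [hx.1]), r3 x (by linarith [hx.1])]
  norm_num [t4, sc] at this
  constructor <;> linarith [this.1, this.2]

lemma mem_of_Icc {x : ℝ} {b : Ball}
    (h : x ∈ Icc (((b.1 - b.2 : ℤ) : ℝ) / sc) (((b.1 + b.2 : ℤ) : ℝ) / sc)) : Mem x b := by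
  obtain ⟨h1, h2⟩ := h
  rw [div_le_iff₀ sc_pos] at h1
  rw [le_div_iff₀ sc_pos] at h2
  push_cast at h1 h2
  exact abs_le.2 ⟨by linarith, by linarith⟩

theorem inner : InnerStmt := by
  set a : ℝ := ((dA.wB.1 - dA.wB.2 : ℤ) : ℝ) / sc with ha
  set b : ℝ := ((dA.wB.1 + dA.wB.2 : ℤ) : ℝ) / sc with hb
  have hab : a ≤ b := by
    have := sc_pos
    rw [ha, hb]
    gcongr
    linarith [Int.natCast_nonneg dA.wB.2]
  have mA : ∀ p : Icc a b, Mem p.1 dA.wB := fun p => mem_of_Icc p.2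
  have par := fun p => Dat.par dA1 (mA p)
  have hw : Continuous fun p : Icc a b => p.1 := continuous_subtype_val
  have hr : Continuous fun p : Icc a b => rF p.1 :=
    Continuous.div (by fun_prop) (by fun_prop) fun p => (par p).d1
  have hs : Continuous fun p : Icc a b => sF p.1 :=
    Continuous.div (by fun_prop) (by fun_prop) fun p => pow_ne_zero 2 (par p).d2
  have hg : Continuous fun p : Icc a b => gSon p.1 :=
    Continuous.div (by simp only [gA, gB, gC]; fun_prop) (by simp only [gA]; fun_prop)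
      fun p => mul_ne_zero two_ne_zero (par p).d3
  obtain ⟨Wo, νo, Ro, Lo⟩ := exists_origin hr hs
  obtain ⟨Ws, νs, Rs, Ls, hc⟩ := exists_sonic hr hs hw hg (fun p => by simp [MM, (par p).e1])
    (fun p => (par p).e2) (fun p => (par p).e3) (fun p => (par p).l) fun p => (par p).a
  have ser : ∀ p : Icc a b, Ser p.1 (Wo p) (Ws p) := fun p =>
    ⟨Lo.jet p 0 le_rfl, Ls.jet p, (hc p).1, (hc p).2⟩
  have TA := fun p => Dat.tub dA1 dA2 dA3 (mA p) (ser p)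
  have io : ∀ τ ∈ Icc (0 : ℝ) (7 / 8), 1 * τ ∈ Icc (0 : ℝ) (7 / 8) := fun τ h => by simpa using h
  have il : ∀ τ ∈ Icc (0 : ℝ) (1 / 8), -1 * τ ∈ Icc (-(1 / 8) : ℝ) (1 / 8) := fun τ h =>
    ⟨by linarith [h.2], by linarith [h.1]⟩
  have ir : ∀ τ ∈ Icc (0 : ℝ) (1 / 8), 1 * τ ∈ Icc (-(1 / 8) : ℝ) (1 / 8) := fun τ h =>
    ⟨by linarith [h.1], by linarith [h.2]⟩
  have ab : |(-1 : ℝ)| = 1 := by simp
  have k0 : ∀ K : ℕ, (0 : ℝ) ≤ K / sc := fun K => by positivity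
  obtain ⟨Vo, δo, o1, -, o2, So, co⟩ := side hr hs Lo abs_one (by norm_num) (fun p => (TA p).o)
    (k0 _) io
  obtain ⟨Vl, δl, l1, -, -, Sl, cl⟩ := side hr hs Ls ab (by norm_num) (fun p => (TA p).s)
    (k0 _) il
  obtain ⟨Vr, δr, r1, -, r2, Sr, -⟩ := side hr hs Ls abs_one (by norm_num) (fun p => (TA p).s)
    (k0 _) ir
  have mis : ∀ (p : Icc a b) (D : Dat), Tub D p.1 (Wo p) (Ws p) →
      Mem (Vo p (7 / 8) - Vl p (1 / 8)) D.mis := fun p D T => by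
    obtain ⟨θ1, h1, e1⟩ := (So p).theta abs_one Lo.pos (Lo.bd p) o1 T.o io (τ := 7 / 8)
      (by norm_num)
    obtain ⟨θ2, h2, e2⟩ := (Sl p).theta ab Ls.pos (Ls.bd p) l1 T.s il (τ := 1 / 8) (by norm_num)
    rw [e1, e2, one_mul, neg_one_mul]
    exact T.mis h1 h2
  let p1 : Icc a b := ⟨a, le_rfl, hab⟩
  let p2 : Icc a b := ⟨b, hab, le_rfl⟩
  have m1 : Mem p1.1 d1.wB := (show blo dA.wB = d1.wB by decide +kernel) ▸ mem_blo dA.wB
  have m2 : Mem p2.1 d2.wB := (show bhi dA.wB = d2.wB by decide +kernel) ▸ mem_bhi dA.wB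
  have f1 := (mis p1 d1 (Dat.tub d11 d12 d13 m1 (ser p1))).neg.pos d1m
  have f2 := (mis p2 d2 (Dat.tub d21 d22 d23 m2 (ser p2))).pos d2m
  have : PreconnectedSpace (Icc a b) := Subtype.preconnectedSpace isPreconnected_Icc
  obtain ⟨p, hp⟩ := intermediate_value_univ p1 p2 (co.sub cl)
    (show (0 : ℝ) ∈ Icc _ _ from ⟨(neg_pos.1 f1).le, f2.le⟩)
  have T := TA p
  have q := par p
  obtain ⟨θ, h1, e1⟩ := (Sr p).theta abs_one Ls.pos (Ls.bd p) r1 T.s ir (τ := 1 / 8) (by norm_num)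
  rw [one_mul] at e1
  obtain ⟨V, v1, v2, v3⟩ := steps T.hr T.hs (e1 ▸ T.fin h1)
  refine assemble q.r1 q.r2 q.s1 q.s2 Lo.pos (Lo.bd p) (Lo.sol p) Ls.pos (Ls.bd p) (Ls.sol p) o1 o2
    l1 r1 r2 (So p) (Sl p) (Sr p) ?_ (fun τ hτ => ?_) (fun τ hτ => ?_) (fun τ hτ => ?_)
    (sub_eq_zero.1 hp) v1 (by norm_num [Stp.e, t4, sc]) v2 v3 ?_
  · have := T.good_o dA4 T.o.mid.le (t := 0) (by norm_num)
    simpa [hb_eval] using this
  · obtain ⟨θ, h, e⟩ := (So p).theta abs_one Lo.pos (Lo.bd p) o1 T.o io hτ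
    rw [e, zero_add]
    exact T.good_o dA4 h (io τ (Ioc_subset_Icc_self hτ))
  · obtain ⟨θ, h, e⟩ := (Sl p).theta ab Ls.pos (Ls.bd p) l1 T.s il hτ
    rw [e]
    exact T.good_s (ser p) q dA5 h (il τ (Ioc_subset_Icc_self hτ)) (by linarith [hτ.1])
  · obtain ⟨θ, h, e⟩ := (Sr p).theta abs_one Ls.pos (Ls.bd p) r1 T.s ir hτ
    rw [e]
    exact T.good_s (ser p) q dA5 h (ir τ (Ioc_subset_Icc_self hτ)) (by linarith [hτ.1])
  · rw [(hc p).1, (hc p).2]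
    have := mul_pos (mul_pos (show 0 < sF p.1 by linarith [q.s1]) q.v) (neg_pos.2 q.u)
    linarith

end Pool.Agent.MP_187b32_an.Prof
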