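import Pool.Agent.MP_187b32_an.Prof.Main
import Pool.Agent.MP_187b32_an.Prof.Inner

/-!
The smooth imploding profile exists.
-/

namespace Pool.Agent.MP_187b32_an.Prof

theorem m1 : M1Stmt := m1_of_inner inner

end Pool.Agent.MP_187b32_an.Prof
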