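import Pool.Agent.MP_187b32_an.Spec.Bg

/-!
From radial profiles (functions of `z = |y| ^ 2`) to the statement `M1Stmt` on three-space.
-/

set_option autoImplicit false

open Set Pool.Agent.Boltz Finset
open scoped ContDiff

namespace Pool.Agent.MP_187b32_an.Prof

/-- Symbols of order `a` in the variable `z`. -/
def SymZ (δ a : ℝ) (f : ℝ → ℝ) : Prop :=
  ContDiffOn ℝ ∞ f (Set.Ioi (-δ)) ∧
    ∀ n : ℕ, ∃ K : ℝ, ∀ z, 0 ≤ z → |deriv^[n] f z| ≤ K * (1 + z) ^ (a - n)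

lemma SymZ.der {δ a : ℝ} {f : ℝ → ℝ} (h : SymZ δ a f) : SymZ δ (a - 1) (deriv f) := by
  refine ⟨h.1.deriv_of_isOpen isOpen_Ioi (by simp), fun n => ?_⟩
  obtain ⟨K, hK⟩ := h.2 (n + 1)
  refine ⟨K, fun z hz => ?_⟩
  have := hK z hz
  rwa [Function.iterate_succ_apply, Nat.cast_succ, show a - (n + 1) = a - 1 - n by ring] at this

lemma SymZ.zero (δ a : ℝ) : SymZ δ a fun _ => 0 := by
  refine ⟨contDiffOn_const, fun n => ⟨0, fun z _ => ?_⟩⟩
  have : deriv^[n] (fun _ : ℝ => (0 : ℝ)) = fun _ => 0 := by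
    induction n with
    | zero => rfl
    | succ n ih => rw [Function.iterate_succ_apply, deriv_const', ih]
  simp [this]

lemma SymZ.hd {δ a : ℝ} {f : ℝ → ℝ} (h : SymZ δ a f) (hδ : 0 < δ) {z : ℝ} (hz : 0 ≤ z) :
    HasDerivAt f (deriv f z) z :=
  ((h.1.contDiffAt (Ioi_mem_nhds (by linarith))).differentiableAt (by simp)).hasDerivAt

lemma nsq (y : E3) : ‖y‖ ^ 2 = ∑ i, y i ^ 2 := by
  rw [EuclideanSpace.norm_sq_eq]
  simp

lemma line_apply (y : E3) (i j : Fin 3) (t : ℝ) :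
    (y + t • ev i) j = y j + t * (if j = i then 1 else 0) := by
  simp [ev]

lemma hd_coord (y : E3) (i j : Fin 3) :
    HasDerivAt (fun t : ℝ => (y + t • ev i) j) (if j = i then 1 else 0) 0 := by
  simp only [line_apply]
  simpa using ((hasDerivAt_id (0 : ℝ)).mul_const (if j = i then (1 : ℝ) else 0)).const_add (y j)

lemma hd_nsq (y : E3) (i : Fin 3) :
    HasDerivAt (fun t : ℝ => ‖y + t • ev i‖ ^ 2) (2 * y i) 0 := by
  simp only [nsq]
  have := HasDerivAt.fun_sum (u := Finset.univ) fun j _ => (hd_coord y i j).fun_pow 2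
  refine this.congr_deriv ?_
  simp [mul_ite]

lemma hd_rad {δ a : ℝ} {f : ℝ → ℝ} (h : SymZ δ a f) (hδ : 0 < δ) (y : E3) (i : Fin 3) :
    HasDerivAt (fun t : ℝ => f (‖y + t • ev i‖ ^ 2)) (deriv f (‖y‖ ^ 2) * (2 * y i)) 0 := by
  have h1 : HasDerivAt f (deriv f (‖y‖ ^ 2)) (‖y + (0 : ℝ) • ev i‖ ^ 2) := by
    simpa using h.hd hδ (sq_nonneg ‖y‖)
  exact h1.comp (0 : ℝ) (hd_nsq y i)

/-- The class generated by radial symbols and coordinates. -/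
inductive Rs (δ : ℝ) : ℝ → (E3 → ℝ) → Prop
  | base {m : ℝ} {f : ℝ → ℝ} : SymZ δ (m / 2) f → Rs δ m fun y => f (‖y‖ ^ 2)
  | mulc {m m' : ℝ} {F : E3 → ℝ} (i : Fin 3) : Rs δ m F → m' = m + 1 → Rs δ m' fun y => y i * F y
  | add {m : ℝ} {F G : E3 → ℝ} : Rs δ m F → Rs δ m G → Rs δ m fun y => F y + G y

lemma Rs.cd {δ m : ℝ} {F : E3 → ℝ} (hδ : 0 < δ) (h : Rs δ m F) : ContDiff ℝ ∞ F := by
  induction h with
  | base hf =>
    exact hf.1.comp_contDiff (contDiff_norm_sq ℝ) fun y =>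
      lt_of_lt_of_le (neg_lt_zero.2 hδ) (sq_nonneg _)
  | mulc i _ _ ih => exact (EuclideanSpace.proj (𝕜 := ℝ) i).contDiff.mul ih
  | add _ _ ih1 ih2 => exact ih1.add ih2

lemma abs_coord_le (y : E3) (i : Fin 3) : |y i| ≤ (1 + ‖y‖ ^ 2) ^ (1 / 2 : ℝ) := by
  rw [← Real.sqrt_eq_rpow]
  apply Real.abs_le_sqrt
  rw [nsq]
  have := Finset.single_le_sum (f := fun j => y j ^ 2) (fun j _ => sq_nonneg (y j))
    (Finset.mem_univ i)
  linarith

lemma Rs.bd {δ m : ℝ} {F : E3 → ℝ} (h : Rs δ m F) :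
    ∃ K : ℝ, ∀ y, |F y| ≤ K * (1 + ‖y‖ ^ 2) ^ (m / 2) := by
  induction h with
  | base hf =>
    obtain ⟨K, hK⟩ := hf.2 0
    exact ⟨K, fun y => by simpa using hK _ (sq_nonneg ‖y‖)⟩
  | @mulc m m' F i _ e ih =>
    obtain ⟨K, hK⟩ := ih
    refine ⟨K, fun y => ?_⟩
    have hp : (0 : ℝ) < 1 + ‖y‖ ^ 2 := by positivity
    rw [abs_mul, e, add_div, Real.rpow_add hp, ← mul_assoc, mul_comm]
    exact mul_le_mul (hK y) (abs_coord_le y i) (abs_nonneg _) ((abs_nonneg _).trans (hK y))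
  | add _ _ ih1 ih2 =>
    obtain ⟨K, hK⟩ := ih1
    obtain ⟨L, hL⟩ := ih2
    exact ⟨K + L, fun y => (abs_add_le _ _).trans (by rw [add_mul]; exact add_le_add (hK y) (hL y))⟩

lemma Rs.congr {δ m m' : ℝ} {F G : E3 → ℝ} (h : Rs δ m F) (e : m = m') (e' : ∀ y, F y = G y) :
    Rs δ m' G := by
  obtain rfl : F = G := funext e'
  exact e ▸ h

lemma Rs.hd {δ m : ℝ} {F : E3 → ℝ} (hδ : 0 < δ) (h : Rs δ m F) (i : Fin 3) :
    ∃ G, Rs δ (m - 1) G ∧ ∀ y, HasDerivAt (fun t : ℝ => F (y + t • ev i)) (G y) 0 := by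
  induction h with
  | @base m f hf =>
    have h1 : Rs δ (m - 1) fun y => y i * deriv f (‖y‖ ^ 2) :=
      Rs.mulc i (Rs.base (m := m - 2) (by rw [show (m - 2) / 2 = m / 2 - 1 by ring]; exact hf.der)) (by ring)
    exact ⟨_, h1.add h1, fun y => (hd_rad hf hδ y i).congr_deriv (by ring)⟩
  | @mulc m m' F j hF e ih =>
    obtain ⟨G, hG, hd⟩ := ih
    have h1 : Rs δ (m' - 1) fun y => y j * G y := Rs.mulc j hG (by rw [e]; ring)
    have h2 : Rs δ (m' - 1) fun y => (if j = i then 1 else 0) * F y := by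
      split_ifs
      · exact hF.congr (by rw [e]; ring) (by simp)
      · exact (Rs.base (SymZ.zero δ _)).congr rfl (by simp)
    exact ⟨_, h2.add h1, fun y => ((hd_coord y i j).fun_mul (hd y)).congr_deriv (by simp)⟩
  | add _ _ ih1 ih2 =>
    obtain ⟨F', hF, h1⟩ := ih1
    obtain ⟨G', hG, h2⟩ := ih2
    exact ⟨_, hF.add hG, fun y => (h1 y).fun_add (h2 y)⟩

lemma Rs.dX {δ m : ℝ} {F : E3 → ℝ} (hδ : 0 < δ) (h : Rs δ m F) (i : Fin 3) :
    Rs δ (m - 1) (dX i F) := by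
  obtain ⟨G, hG, hd⟩ := h.hd hδ i
  exact hG.congr rfl fun y => (dX_eq (hd y).hd).symm

lemma Rs.dXw {δ : ℝ} (hδ : 0 < δ) (w : List (Fin 3)) : ∀ {m : ℝ} {F : E3 → ℝ}, Rs δ m F →
    Rs δ (m - w.length) (dXw w F) := by
  induction w with
  | nil => exact fun h => h.congr (by simp) fun _ => rfl
  | cons i w ih =>
    intro m F h
    exact (ih (h.dX hδ i)).congr (by simp; ring) fun _ => rfl

lemma Rs.words {δ m : ℝ} (hδ : 0 < δ) {ι : Type} [Finite ι] {F : ι → E3 → ℝ}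
    (h : ∀ j, Rs δ m (F j)) : ∃ K : ℕ → ℝ, ∀ (w : List (Fin 3)) j y,
      |Boltz.dXw w (F j) y| ≤ K w.length * (1 + ‖y‖ ^ 2) ^ ((m - w.length) / 2) := by
  choose K hK using fun (p : List (Fin 3) × ι) => (Rs.dXw hδ p.1 (h p.2)).bd
  have hb : ∀ n : ℕ, ∃ L : ℝ, ∀ p : List (Fin 3) × ι, p.1.length = n → K p ≤ L := fun n => by
    have hf : ({l : List (Fin 3) | l.length = n} ×ˢ (Set.univ : Set ι)).Finite :=
      (List.finite_length_eq (Fin 3) n).prod Set.finite_univ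
    obtain ⟨L, hL⟩ := (hf.image K).bddAbove
    exact ⟨L, fun p hp => hL ⟨p, ⟨hp, trivial⟩, rfl⟩⟩
  choose L hL using hb
  refine ⟨L, fun w j y => (hK (w, j) y).trans ?_⟩
  exact mul_le_mul_of_nonneg_right (hL _ (w, j) rfl) (by positivity)

/-- The radial form of the profile statement. -/
def RadStmt : Prop :=
  ∃ (r lam c0 δ : ℝ) (w C : ℝ → ℝ), 11 / 10 < r ∧ r < 9 / 8 ∧ 0 < lam ∧ 0 < c0 ∧ 0 < δ ∧
    SymZ δ (-r / 2) w ∧ SymZ δ ((1 - r) / 2) C ∧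
    (∀ z, 0 ≤ z → (r - 1) * w z + (1 + w z) * (w z + 2 * z * deriv w z)
      + 10 * C z * deriv C z = 0) ∧
    (∀ z, 0 ≤ z → (r - 1) * C z + 2 * z * (1 + w z) * deriv C z
      + 1 / 3 * C z * (3 * w z + 2 * z * deriv w z) = 0) ∧
    (∀ z, 0 ≤ z → c0 * (1 + z) ^ ((1 - r) / 2) ≤ C z) ∧
    ∀ z, 0 ≤ z → lam ≤ 1 + w z - 9 / 4 * √(4 * z * deriv C z ^ 2) ∧
      lam ≤ 1 + w z + 2 * z * deriv w z - 9 / 4 * √(4 * z * deriv C z ^ 2)

theorem m1_of_rad (h : RadStmt) : M1Stmt := by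
  obtain ⟨r, lam, c0, δ, w, C, hr1, hr2, hlam, hc0, hδ, hw, hC, e1, e2, hlow, hrep⟩ := h
  have rU : ∀ j : Fin 3, Rs δ (1 - r) fun y => y j * w (‖y‖ ^ 2) := fun j =>
    Rs.mulc j (Rs.base (m := -r) hw) (by ring)
  have rC : Rs δ (1 - r) fun y => C (‖y‖ ^ 2) := Rs.base hC
  have dU : ∀ (i j : Fin 3) (y : E3), dX i (fun y : E3 => y j * w (‖y‖ ^ 2)) y =
      (if j = i then 1 else 0) * w (‖y‖ ^ 2) + y j * (deriv w (‖y‖ ^ 2) * (2 * y i)) :=
    fun i j y => dX_eq (((hd_coord y i j).fun_mul (hd_rad hw hδ y i)).congr_deriv (by simp)).hd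
  have dC : ∀ (i : Fin 3) (y : E3), dX i (fun y : E3 => C (‖y‖ ^ 2)) y =
      deriv C (‖y‖ ^ 2) * (2 * y i) := fun i y => dX_eq (hd_rad hC hδ y i).hd
  obtain ⟨K1, hK1⟩ := Rs.words hδ rU
  obtain ⟨K2, hK2⟩ := Rs.words hδ (ι := Unit) (F := fun _ y => C (‖y‖ ^ 2)) fun _ => rC
  refine ⟨r, lam, c0, fun j y => y j * w (‖y‖ ^ 2), fun y => C (‖y‖ ^ 2),
    fun n => max (K1 n) (K2 n), hr1, hr2, hlam, hc0, fun j => (rU j).cd hδ, rC.cd hδ,
    fun y j => ?_, fun y => ?_, fun u j y => (hK1 u j y).trans ?_,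
    fun u y => (hK2 u () y).trans ?_, fun y => hlow _ (sq_nonneg _), fun y ξ => ?_⟩
  · have h1 := e1 _ (sq_nonneg ‖y‖)
    simp only [dU, dC]
    generalize w (‖y‖ ^ 2) = a at *
    generalize deriv w (‖y‖ ^ 2) = b at *
    generalize C (‖y‖ ^ 2) = c at *
    generalize deriv C (‖y‖ ^ 2) = d at *
    rw [nsq] at h1
    fin_cases j <;> simp [Fin.sum_univ_three] at h1 ⊢
    · linear_combination (y 0) * h1
    · linear_combination (y 1) * h1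
    · linear_combination (y 2) * h1
  · have h1 := e2 _ (sq_nonneg ‖y‖)
    simp only [dU, dC]
    generalize w (‖y‖ ^ 2) = a at *
    generalize deriv w (‖y‖ ^ 2) = b at *
    generalize C (‖y‖ ^ 2) = c at *
    generalize deriv C (‖y‖ ^ 2) = d at *
    rw [nsq] at h1
    simp [Fin.sum_univ_three] at h1 ⊢
    linear_combination h1
  · exact mul_le_mul_of_nonneg_right (le_max_left _ _) (by positivity)
  · exact mul_le_mul_of_nonneg_right (le_max_right _ _) (by positivity)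
  · obtain ⟨h1, h2⟩ := hrep _ (sq_nonneg ‖y‖)
    have e3 : ∑ i, dX i (fun y : E3 => C (‖y‖ ^ 2)) y ^ 2 =
        4 * ‖y‖ ^ 2 * deriv C (‖y‖ ^ 2) ^ 2 := by
      simp only [dC]
      generalize deriv C (‖y‖ ^ 2) = d
      rw [nsq]
      simp only [Fin.sum_univ_three]
      ring
    rw [e3]
    simp only [dU]
    generalize w (‖y‖ ^ 2) = a at *
    generalize deriv w (‖y‖ ^ 2) = b at *
    generalize √(4 * ‖y‖ ^ 2 * deriv C (‖y‖ ^ 2) ^ 2) = g at *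
    rw [nsq] at h2
    have cs := Finset.sum_mul_sq_le_sq_mul_sq Finset.univ (fun i => ξ i) fun i => y i
    simp [Fin.sum_univ_three] at h2 cs ⊢
    have hx : 0 ≤ ξ 0 ^ 2 + ξ 1 ^ 2 + ξ 2 ^ 2 := by positivity
    rcases le_total 0 b with hb | hb
    · nlinarith [mul_nonneg hb (sq_nonneg (ξ 0 * y 0 + ξ 1 * y 1 + ξ 2 * y 2)),
        mul_nonneg (sub_nonneg.2 h1) hx]
    · nlinarith [mul_nonneg (neg_nonneg.2 hb) (sub_nonneg.2 cs), mul_nonneg (sub_nonneg.2 h2) hx]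

end Pool.Agent.MP_187b32_an.Prof
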