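import Mathlib
import Pool.Agent.MP_187b32_an.Prof.Glue
import Pool.Agent.MP_187b32_an.Prof.Radial

/-!
Quadrature: from the profile as a function of `s` to the radial profile as a function of
`z = |y| ^ 2`, with the symbol bounds.
-/

set_option autoImplicit false

open Set Filter Topology
open scoped ContDiff

namespace Pool.Agent.MP_187b32_an.Prof

lemma far {J : Set ℝ} (hJ : IsOpen J) {z1 : ℝ} (hz1 : 0 < z1) {q E f M G φ : ℝ → ℝ}
    (hq : ∀ z, z1 < z → q z ∈ J ∧ HasDerivAt q (-(q z * M (q z)) / (2 * z)) z)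
    (hE : ∀ z, z1 < z → HasDerivAt E (E z * G (q z) / z) z) (hM : ContDiffOn ℝ ∞ M J)
    (hG : ContDiffOn ℝ ∞ G J) (hφ : ContDiffOn ℝ ∞ φ J)
    (hf : ∀ z, z1 < z → f z = E z * φ (q z)) (n : ℕ) :
    ∃ ψ, ContDiffOn ℝ ∞ ψ J ∧ ∀ z, z1 < z → deriv^[n] f z = E z * ψ (q z) / z ^ n := by
  induction n with
  | zero => exact ⟨φ, hφ, fun z hz => by simpa using hf z hz⟩
  | succ n ih =>
    obtain ⟨ψ, hψ, h⟩ := ih
    have hψ' : ContDiffOn ℝ ∞ (deriv ψ) J := hψ.deriv_of_isOpen hJ (by simp)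
    refine ⟨fun x => (G x - n) * ψ x - x * M x / 2 * deriv ψ x, by fun_prop, fun z hz => ?_⟩
    have hz0 : z ≠ 0 := by linarith
    have e : deriv^[n] f =ᶠ[𝓝 z] fun z => E z * ψ (q z) / z ^ n :=
      mem_of_superset (Ioi_mem_nhds hz) fun t ht => h t ht
    have d1 : HasDerivAt ψ (deriv ψ (q z)) (q z) :=
      ((hψ.contDiffAt (hJ.mem_nhds (hq z hz).1)).differentiableAt (by simp)).hasDerivAt
    have d2 := ((hE z hz).fun_mul (d1.comp z (hq z hz).2)).fun_div (hasDerivAt_pow n z)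
      (pow_ne_zero n hz0)
    simp only [Function.comp_def] at d2
    rw [Function.iterate_succ_apply', e.deriv_eq, d2.deriv]
    rcases n with _ | n
    · field_simp
      simp
      ring
    · simp only [Nat.add_sub_cancel]
      field_simp
      ring

lemma cd_iter {U : Set ℝ} (hU : IsOpen U) {f : ℝ → ℝ} (hf : ContDiffOn ℝ ∞ f U) (n : ℕ) :
    ContDiffOn ℝ ∞ (deriv^[n] f) U := by
  induction n with
  | zero => exact hf
  | succ n ih =>
    rw [Function.iterate_succ_apply']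
    exact ih.deriv_of_isOpen hU (by simp)

lemma rpow_cmp {z2 a : ℝ} (hz2 : 0 < z2) (ha : a ≤ 0) {z : ℝ} (hz : z2 ≤ z) :
    (1 + z) ^ a ≤ z ^ a ∧ z ^ a ≤ (z2 / (1 + z2)) ^ a * (1 + z) ^ a := by
  have h0 : 0 < z := by linarith
  refine ⟨Real.rpow_le_rpow_of_nonpos h0 (by linarith) ha, ?_⟩
  rw [← Real.mul_rpow (by positivity) (by positivity)]
  refine Real.rpow_le_rpow_of_nonpos (by positivity) ?_ ha
  rw [div_mul_eq_mul_div, div_le_iff₀ (by positivity)]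
  nlinarith

lemma symz {δ a z2 : ℝ} {f : ℝ → ℝ} (hδ : 0 < δ) (hf : ContDiffOn ℝ ∞ f (Ioi (-δ))) (ha : a ≤ 0)
    (hz2 : 0 < z2) (hfar : ∀ n : ℕ, ∃ K, ∀ z, z2 ≤ z → |deriv^[n] f z| ≤ K * z ^ a / z ^ n) :
    SymZ δ a f := by
  refine ⟨hf, fun n => ?_⟩
  obtain ⟨K, hK⟩ := hfar n
  have hc : ContinuousOn (fun z => deriv^[n] f z / (1 + z) ^ (a - n)) (Icc 0 z2) := by
    refine ((cd_iter isOpen_Ioi hf n).continuousOn.mono fun z hz => ?_).div
      (ContinuousOn.rpow_const (by fun_prop) fun z hz => Or.inl ?_) fun z hz => ?_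
    · exact lt_of_lt_of_le (neg_lt_zero.2 hδ) hz.1
    · linarith [hz.1]
    · exact (Real.rpow_pos_of_pos (by linarith [hz.1]) _).ne'
  obtain ⟨L, hL⟩ := isCompact_Icc.exists_bound_of_continuousOn hc
  refine ⟨max L (|K| * (z2 / (1 + z2)) ^ (a - n)), fun z hz => ?_⟩
  have hp : 0 < (1 + z) ^ (a - n) := Real.rpow_pos_of_pos (by linarith) _
  rcases le_total z z2 with h | h
  · have := hL z ⟨hz, h⟩
    rw [Real.norm_eq_abs, abs_div, abs_of_pos hp, div_le_iff₀ hp] at this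
    exact this.trans (mul_le_mul_of_nonneg_right (le_max_left _ _) hp.le)
  · have h0 : 0 < z := by linarith
    have h1 := (rpow_cmp hz2 (a := a - n) (by linarith [Nat.cast_nonneg (α := ℝ) n]) h).2
    refine (hK z h).trans (le_trans ?_ (mul_le_mul_of_nonneg_right (le_max_right _ _) hp.le))
    rw [mul_div_assoc, ← Real.rpow_natCast, ← Real.rpow_sub h0, mul_assoc]
    exact mul_le_mul (le_abs_self K) h1 (by positivity) (abs_nonneg K)

lemma far_bd {z1 z2 a L : ℝ} (h12 : z1 < z2) (hz1 : 0 < z1) {q E f ψ : ℝ → ℝ} {n : ℕ}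
    (hψ : ContDiffOn ℝ ∞ ψ (Ioo (-1 / 10) (1 / 2)))
    (h : ∀ z, z1 < z → deriv^[n] f z = E z * ψ (q z) / z ^ n)
    (hq : ∀ z, z2 ≤ z → q z ∈ Icc (0 : ℝ) (1 / 3)) (hE : ∀ z, z2 ≤ z → |E z| ≤ L * z ^ a) :
    ∃ K, ∀ z, z2 ≤ z → |deriv^[n] f z| ≤ K * z ^ a / z ^ n := by
  have hsub : Icc (0 : ℝ) (1 / 3) ⊆ Ioo (-1 / 10) (1 / 2) :=
    Icc_subset_Ioo (by norm_num) (by norm_num)
  obtain ⟨B, hB⟩ := isCompact_Icc.exists_bound_of_continuousOn (hψ.continuousOn.mono hsub)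
  refine ⟨B * L, fun z hz => ?_⟩
  have h0 : 0 < z := by linarith
  rw [h z (by linarith), abs_div, abs_of_pos (pow_pos h0 n), abs_mul, mul_comm, mul_assoc]
  refine div_le_div_of_nonneg_right ?_ (by positivity)
  exact mul_le_mul (hB _ (hq z hz)) (hE z hz) (abs_nonneg _) ((norm_nonneg _).trans (hB _ (hq z hz)))

lemma log_bd {r : ℝ} {H M : ℝ → ℝ} (hM : ContDiffOn ℝ ∞ M (Ioo (-1 / 10) (1 / 2))) (hM0 : M 0 = r)
    (hpos : ∀ q ∈ Ioo (-1 / 10 : ℝ) (1 / 2), 0 < M q)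
    (hH : ∀ s, 4 < s → HasDerivAt H (((M (√s)⁻¹)⁻¹ - 1) / s) s) :
    ∃ K, ∀ s, 9 ≤ s → |H s - (r⁻¹ - 1) * Real.log s| ≤ K := by
  have hsub : Icc (0 : ℝ) (1 / 3) ⊆ Ioo (-1 / 10) (1 / 2) :=
    Icc_subset_Ioo (by norm_num) (by norm_num)
  have h1 : ContDiffOn ℝ 1 (fun q => (M q)⁻¹) (Icc 0 (1 / 3)) :=
    ((hM.inv fun q hq => (hpos q hq).ne').mono hsub).of_le (by exact_mod_cast le_top)
  obtain ⟨L, hL⟩ := h1.exists_lipschitzOnWith one_ne_zero (convex_Icc _ _) isCompact_Icc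
  have hq : ∀ s : ℝ, 9 ≤ s → (√s)⁻¹ ∈ Icc (0 : ℝ) (1 / 3) := fun s hs =>
    ⟨by positivity, by
      rw [one_div]
      exact inv_anti₀ (by norm_num) (Real.le_sqrt_of_sq_le (by linarith))⟩
  have hd : ∀ (c : ℝ) (s : ℝ), 9 ≤ s → ∃ v,
      HasDerivAt (fun s => H s - (r⁻¹ - 1) * Real.log s + c * (√s)⁻¹) v s ∧
        |v + c * ((√s)⁻¹ ^ 3 / 2)| ≤ L * (√s)⁻¹ ^ 3 := fun c s hs => by
    obtain ⟨q0, -, q2, q3⟩ := q_facts (s := s) (by linarith)
    refine ⟨_, ((hH s (by linarith)).fun_sub ((Real.hasDerivAt_log (by linarith)).const_mul _)).fun_add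
      (q3.const_mul c), ?_⟩
    have a1 := hL.dist_le_mul _ (hq s hs) 0 ⟨le_rfl, by norm_num⟩
    rw [Real.dist_eq, Real.dist_eq, hM0, sub_zero, abs_of_pos q0] at a1
    generalize (√s)⁻¹ = q at *
    subst q2
    have e : ((M q)⁻¹ - 1) / (q ^ 2)⁻¹ - (r⁻¹ - 1) * (q ^ 2)⁻¹⁻¹ + c * -(q ^ 3 / 2) +
        c * (q ^ 3 / 2) = ((M q)⁻¹ - r⁻¹) * q ^ 2 := by
      rw [div_inv_eq_mul, inv_inv]
      ring
    rw [e, abs_mul, abs_of_pos (pow_pos q0 2)]
    nlinarith [pow_pos q0 2]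
  have hanti : AntitoneOn (fun s => H s - (r⁻¹ - 1) * Real.log s + (2 * L) * (√s)⁻¹) (Ici 9) := by
    choose! v hv using hd (2 * L)
    refine antitoneOn_of_deriv_nonpos (convex_Ici _)
      (fun s hs => (hv s hs).1.continuousAt.continuousWithinAt)
      (fun s hs => (hv s (interior_subset hs)).1.differentiableAt.differentiableWithinAt)
      fun s hs => ?_
    have := hv s (interior_subset hs)
    rw [this.1.deriv]
    linarith [(abs_le.1 this.2).2]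
  have hmono : MonotoneOn (fun s => H s - (r⁻¹ - 1) * Real.log s + (-2 * L) * (√s)⁻¹) (Ici 9) := by
    choose! v hv using hd (-2 * L)
    refine monotoneOn_of_deriv_nonneg (convex_Ici _)
      (fun s hs => (hv s hs).1.continuousAt.continuousWithinAt)
      (fun s hs => (hv s (interior_subset hs)).1.differentiableAt.differentiableWithinAt)
      fun s hs => ?_
    have := hv s (interior_subset hs)
    rw [this.1.deriv]
    linarith [(abs_le.1 this.2).1]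
  refine ⟨|H 9 - (r⁻¹ - 1) * Real.log 9| + 2 * L * (√9)⁻¹, fun s hs => ?_⟩
  have a1 := hanti (mem_Ici.2 le_rfl) hs hs
  have a2 := hmono (mem_Ici.2 le_rfl) hs hs
  have a3 : 0 ≤ (L : ℝ) * (√s)⁻¹ := by positivity
  simp only at a1 a2
  rw [abs_le]
  constructor
  · linarith [neg_abs_le (H 9 - (r⁻¹ - 1) * Real.log 9)]
  · linarith [le_abs_self (H 9 - (r⁻¹ - 1) * Real.log 9)]

/-- Inverse of an increasing smooth function. -/
lemma exists_inv {a b : ℝ} (hab : a < b) {Z Z' : ℝ → ℝ} (hZ : ∀ s, a < s → HasDerivAt Z (Z' s) s)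
    (hpos : ∀ s, a < s → 0 < Z' s) (htop : ∀ z, ∃ s, b ≤ s ∧ z ≤ Z s) :
    StrictMonoOn Z (Ioi a) ∧ ∃ S : ℝ → ℝ, ∀ z, Z b < z → b < S z ∧ Z (S z) = z ∧
      HasDerivAt S (Z' (S z))⁻¹ z := by
  have hm : StrictMonoOn Z (Ioi a) := strictMonoOn_of_deriv_pos (convex_Ioi _)
    (fun s hs => (hZ s hs).continuousAt.continuousWithinAt) fun s hs => by
      rw [interior_Ioi] at hs
      rw [(hZ s hs).deriv]
      exact hpos s hs
  have hex : ∀ z, Z b < z → ∃ s, b < s ∧ Z s = z := fun z hz => by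
    obtain ⟨t, ht, hzt⟩ := htop z
    obtain ⟨s, hs, e⟩ := intermediate_value_Ioc ht
      (fun s hs => (hZ s (hab.trans_le hs.1)).continuousAt.continuousWithinAt) ⟨hz, hzt⟩
    exact ⟨s, hs.1, e⟩
  choose! S hS1 hS2 using hex
  refine ⟨hm, S, fun z hz => ⟨hS1 z hz, hS2 z hz, ?_⟩⟩
  have hmono : MonotoneOn S (Ioi (Z b)) := fun x hx y hy hxy => by
    rw [← hm.le_iff_le (hab.trans (hS1 x hx)) (hab.trans (hS1 y hy)), hS2 x hx, hS2 y hy]
    exact hxy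
  have himg : Ioi b ⊆ S '' Ioi (Z b) := fun s hs => by
    have h1 : Z b < Z s := hm hab (hab.trans hs) hs
    exact ⟨Z s, h1, hm.injOn (hab.trans (hS1 _ h1)) (hab.trans hs) (hS2 _ h1)⟩
  exact HasDerivAt.of_local_left_inverse
    (continuousAt_of_monotoneOn_of_image_mem_nhds hmono (Ioi_mem_nhds hz)
      (mem_of_superset (Ioi_mem_nhds (hS1 z hz)) himg))
    (hZ _ (hab.trans (hS1 z hz))) (hpos _ (hab.trans (hS1 z hz))).ne'
    (mem_of_superset (Ioi_mem_nhds hz) fun y hy => hS2 y hy)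

end Pool.Agent.MP_187b32_an.Prof
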